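import Pool.Agent.Run7.h414.OneClass

set_option autoImplicit false

namespace Run7.h414

open SimpleGraph Finset
open scoped Classical

variable {V : Type*} [Fintype V]

/-- Sets with at most `k` elements are few. -/
theorem card_small_sets (V : Type*) [Fintype V] (k : ℕ) :
    ((univ : Finset (Finset V)).filter (fun X => X.card ≤ k)).card ≤
      (Fintype.card V + 1) ^ k := by
  have hsub : (univ : Finset (Finset V)).filter (fun X => X.card ≤ k) ⊆
      (univ : Finset (Fin k → Option V)).image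
        (fun x => univ.filter (fun v => ∃ i, x i = some v)) := by
    intro X hX
    rw [mem_filter] at hX
    rw [mem_image]
    refine ⟨fun i => if h : i.1 < X.card then some (X.equivFin.symm ⟨i.1, h⟩).1 else none,
      mem_univ _, ?_⟩
    ext v
    simp only [mem_filter, mem_univ, true_and]
    constructor
    · rintro ⟨i, hi⟩
      split_ifs at hi with h
      rw [← Option.some.inj hi]
      exact (X.equivFin.symm ⟨i.1, h⟩).2
    · intro hv
      have h1 := (X.equivFin ⟨v, hv⟩).2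
      refine ⟨⟨(X.equivFin ⟨v, hv⟩).1, by omega⟩, ?_⟩
      rw [dif_pos h1]
      simp
  refine (Finset.card_le_card hsub).trans ?_
  refine Finset.card_image_le.trans ?_
  rw [Finset.card_univ, Fintype.card_fun, Fintype.card_option, Fintype.card_fin]

/-- The existence of a good partition. -/
theorem exists_partition (G : SimpleGraph V) {g k r : ℕ} (hr : 0 < r) (hg : 64 * r + k ≤ g)
    (hG : KC G g) (hcard : g < Fintype.card V)
    (hnum : (((Fintype.card V : ℝ) + 1) ^ k + 1) * (10 * (Fintype.card V : ℝ) ^ 2) <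
      (4 / 3 : ℝ) ^ r) :
    ∃ T : Set V, Cn G Tᶜ ∧ (∀ v, ∃ u ∉ T, G.Adj v u) ∧
      ∀ X : Finset V, X.card ≤ k → (∀ w ∉ X, ∃ v ∉ X, v ∈ T ∧ G.Adj w v) ∧
        Cn G {v | v ∉ X ∧ v ∈ T} := by
  set n : ℝ := (Fintype.card V : ℝ) with hn
  set O : ℝ := ((Om V (4 * r)).card : ℝ) with hO
  have hOpos : 0 < O := by
    have h1 : (fun _ : V => 0) ∈ Om V (4 * r) := by
      rw [mem_Om]
      intro _
      omega
    have h2 : 0 < (Om V (4 * r)).card := Finset.card_pos.mpr ⟨_, h1⟩
    rw [hO]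
    exact_mod_cast h2
  -- the bad event for a removed set `X`
  set B : Finset V → Finset (V → ℕ) := fun X => (Om V (4 * r)).filter
    (fun ω => ¬ (Dom G Xᶜ (2 * r) ω ∧ Cn G {v | v ∈ Xᶜ ∧ ω v < 2 * r})) with hB
  have hBX : ∀ X : Finset V, X.card ≤ k →
      ((B X).card : ℝ) ≤ 10 * n ^ 2 * (3 / 4 : ℝ) ^ r * O := by
    intro X hX
    have hXc : (Xᶜ : Finset V).card = Fintype.card V - X.card := Finset.card_compl X
    have hne : (Xᶜ : Finset V).Nonempty := by
      rw [← Finset.card_pos, hXc]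
      omega
    have hcoe : ((Xᶜ : Finset V) : Set V) = ((X : Set V))ᶜ := Finset.coe_compl X
    apply oneclass G Xᶜ hr hne
    · intro S hS
      rw [hcoe]
      have e : ((X : Set V))ᶜ \ S = ((X : Set V) ∪ S)ᶜ := by
        rw [Set.compl_union]
        rfl
      rw [e]
      apply hG
      have h1 := Set.ncard_union_le (X : Set V) S
      rw [Set.ncard_coe_finset] at h1
      omega
    · intro w hw
      by_contra hlt
      push Not at hlt
      obtain ⟨u, hu, hwu⟩ := hG.deg (by rw [Nat.card_eq_fintype_card]; exact hcard) w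
        (T := ((X ∪ (Xᶜ).filter (fun v => G.Adj w v) : Finset V) : Set V)) (by
          rw [Set.ncard_coe_finset]
          have h1 := Finset.card_union_le X ((Xᶜ).filter (fun v => G.Adj w v))
          omega)
      apply hu
      rw [mem_coe, mem_union, mem_filter, mem_compl]
      by_cases h2 : u ∈ X
      · exact Or.inl h2
      · exact Or.inr ⟨h2, hwu⟩
  -- the bad event for the upper half
  set rev : (V → ℕ) → (V → ℕ) := fun ω v => 4 * r - 1 - ω v with hrev
  set B' : Finset (V → ℕ) := (Om V (4 * r)).filter (fun ω => rev ω ∈ B ∅) with hB'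
  have hB'card : (B'.card : ℝ) ≤ 10 * n ^ 2 * (3 / 4 : ℝ) ^ r * O := by
    have h1 : B'.card ≤ (B ∅).card := by
      apply Finset.card_le_card_of_injOn rev
      · intro ω hω
        rw [hB', mem_coe, mem_filter] at hω
        exact hω.2
      · intro ω hω ω' hω' he
        rw [hB', mem_coe, mem_filter, mem_Om] at hω hω'
        funext v
        have h1 := congrFun he v
        simp only [hrev] at h1
        have h2 := hω.1 v
        have h3 := hω'.1 v
        omega
    have h2 : (B'.card : ℝ) ≤ ((B ∅).card : ℝ) := by exact_mod_cast h1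
    exact h2.trans (hBX ∅ (by simp))
  -- the union of the bad events is not everything
  set small := (univ : Finset (Finset V)).filter (fun X => X.card ≤ k) with hsmall
  have hcardU : ((B' ∪ small.biUnion B).card : ℝ) < O := by
    have h1 : (B' ∪ small.biUnion B).card ≤ B'.card + ∑ X ∈ small, (B X).card :=
      (Finset.card_union_le _ _).trans (Nat.add_le_add_left Finset.card_biUnion_le _)
    have h2 : ((B' ∪ small.biUnion B).card : ℝ) ≤ (B'.card : ℝ) + ∑ X ∈ small, ((B X).card : ℝ) := by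
      exact_mod_cast h1
    have h3 : ∑ X ∈ small, ((B X).card : ℝ) ≤
        ∑ X ∈ small, (10 * n ^ 2 * (3 / 4 : ℝ) ^ r * O) := by
      apply Finset.sum_le_sum
      intro X hX
      rw [hsmall, mem_filter] at hX
      exact hBX X hX.2
    rw [Finset.sum_const, nsmul_eq_mul] at h3
    have h4 : (small.card : ℝ) ≤ (n + 1) ^ k := by
      have := card_small_sets V k
      rw [hn]
      exact_mod_cast this
    have hq : 0 ≤ 10 * n ^ 2 * (3 / 4 : ℝ) ^ r * O := by positivity
    have h5 : (small.card : ℝ) * (10 * n ^ 2 * (3 / 4 : ℝ) ^ r * O) ≤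
        (n + 1) ^ k * (10 * n ^ 2 * (3 / 4 : ℝ) ^ r * O) := mul_le_mul_of_nonneg_right h4 hq
    have h6 : (4 / 3 : ℝ) ^ r * (3 / 4 : ℝ) ^ r = 1 := by
      rw [← mul_pow]
      norm_num
    have h7 : ((n + 1) ^ k + 1) * (10 * n ^ 2) * ((3 / 4 : ℝ) ^ r * O) < O := by
      have h8 : ((n + 1) ^ k + 1) * (10 * n ^ 2) * ((3 / 4 : ℝ) ^ r * O) <
          (4 / 3 : ℝ) ^ r * ((3 / 4 : ℝ) ^ r * O) :=
        mul_lt_mul_of_pos_right hnum (by positivity)
      have h9 : (4 / 3 : ℝ) ^ r * ((3 / 4 : ℝ) ^ r * O) = O := by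
        rw [← mul_assoc, h6, one_mul]
      rw [h9] at h8
      exact h8
    calc ((B' ∪ small.biUnion B).card : ℝ)
        ≤ 10 * n ^ 2 * (3 / 4 : ℝ) ^ r * O + (n + 1) ^ k * (10 * n ^ 2 * (3 / 4 : ℝ) ^ r * O) := by
          linarith
      _ = ((n + 1) ^ k + 1) * (10 * n ^ 2) * ((3 / 4 : ℝ) ^ r * O) := by ring
      _ < O := h7
  obtain ⟨ω, hω, hωn⟩ : ∃ ω ∈ Om V (4 * r), ω ∉ B' ∪ small.biUnion B := by
    by_contra hcon
    push Not at hcon
    have h1 := Finset.card_le_card (show Om V (4 * r) ⊆ B' ∪ small.biUnion B from hcon)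
    have h2 : O ≤ ((B' ∪ small.biUnion B).card : ℝ) := by
      rw [hO]
      exact_mod_cast h1
    linarith
  rw [mem_union, not_or, mem_biUnion] at hωn
  push Not at hωn
  obtain ⟨hn1, hn2⟩ := hωn
  have hlt : ∀ v, ω v < 4 * r := mem_Om.mp hω
  have hup : Dom G (∅ᶜ : Finset V) (2 * r) (rev ω) ∧
      Cn G {v | v ∈ (∅ᶜ : Finset V) ∧ rev ω v < 2 * r} := by
    by_contra hcon
    apply hn1
    rw [hB', mem_filter]
    refine ⟨hω, ?_⟩
    rw [hB]
    simp only [mem_filter]
    refine ⟨?_, hcon⟩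
    rw [mem_Om]
    intro v
    have := hlt v
    simp only [hrev]
    omega
  refine ⟨{v | ω v < 2 * r}, ?_, ?_, ?_⟩
  · have e : ({v | ω v < 2 * r} : Set V)ᶜ =
        {v | v ∈ (∅ᶜ : Finset V) ∧ rev ω v < 2 * r} := by
      ext v
      have := hlt v
      simp only [Set.mem_compl_iff, Set.mem_ofPred_eq, hrev, mem_compl, notMem_empty,
        not_false_eq_true, true_and, not_lt]
      omega
    rw [e]
    exact hup.2
  · intro v
    obtain ⟨u, -, hvu, hu⟩ := hup.1 v (by simp)
    refine ⟨u, ?_, hvu⟩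
    have := hlt u
    simp only [hrev] at hu
    simp only [Set.mem_ofPred_eq]
    omega
  · intro X hX
    have h1 : Dom G Xᶜ (2 * r) ω ∧ Cn G {v | v ∈ Xᶜ ∧ ω v < 2 * r} := by
      by_contra hcon
      apply hn2 X (by rw [hsmall, mem_filter]; exact ⟨mem_univ _, hX⟩)
      rw [hB]
      simp only [mem_filter]
      exact ⟨hω, hcon⟩
    refine ⟨?_, ?_⟩
    · intro w hw
      obtain ⟨v, hv, hwv, hvl⟩ := h1.1 w (by rw [mem_compl]; exact hw)
      rw [mem_compl] at hv
      exact ⟨v, hv, hvl, hwv⟩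
    · have e : ({v | v ∉ X ∧ v ∈ ({v | ω v < 2 * r} : Set V)} : Set V) =
          {v | v ∈ Xᶜ ∧ ω v < 2 * r} := by
        ext v
        simp only [Set.mem_ofPred_eq, mem_compl]
      rw [e]
      exact h1.2

/-- From a good partition to a removable odd cycle. -/
theorem finish (G : SimpleGraph V) {k : ℕ} (hnb : ¬ Bip G Set.univ) (T : Set V)
    (hS : Cn G Tᶜ) (hSd : ∀ v, ∃ u ∉ T, G.Adj v u)
    (hT : ∀ X : Finset V, X.card ≤ k + 1 → (∀ w ∉ X, ∃ v ∉ X, v ∈ T ∧ G.Adj w v) ∧
        Cn G {v | v ∉ X ∧ v ∈ T}) :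
    ∃ X : Set V, Cyc G X ∧ k < (Xᶜ).ncard ∧
      ∀ S : Finset V, S.card < k → Cn G (Xᶜ \ (S : Set V)) := by
  -- two vertices of `T` suffice to destroy two-colourability
  obtain ⟨s₀, hs₀⟩ := hS.1
  have hex : ∃ t t' : V, ¬ Bip G (Tᶜ ∪ {t, t'}) := by
    by_contra hcon
    push Not at hcon
    obtain ⟨c, hc⟩ := hcon s₀ s₀
    have hcS : ∀ u ∈ Tᶜ, ∀ v ∈ Tᶜ, G.Adj u v → c u ≠ c v :=
      fun u hu v hv => hc u (Or.inl hu) v (Or.inl hv)
    choose s hsT hsadj using hSd
    apply hnb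
    refine ⟨fun v => !(c (s v)), ?_⟩
    intro u _ v _ huv
    obtain ⟨e, he⟩ := hcon u v
    have heS : ∀ u ∈ Tᶜ, ∀ v ∈ Tᶜ, G.Adj u v → e u ≠ e v :=
      fun u hu v hv => he u (Or.inl hu) v (Or.inl hv)
    have h1 : e u ≠ e (s u) := he u (Or.inr (by simp)) (s u) (Or.inl (hsT u)) (hsadj u)
    have h2 : e v ≠ e (s v) := he v (Or.inr (by simp)) (s v) (Or.inl (hsT v)) (hsadj v)
    have h3 : e u ≠ e v := he u (Or.inr (by simp)) v (Or.inr (by simp)) huv
    -- `e` and `c` agree or are opposite on `Tᶜ`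
    have h4 : (c (s u) = c (s v)) ↔ (e (s u) = e (s v)) := by
      by_cases h0 : c s₀ = e s₀
      · have h5 := color_unique hS hcS heS hs₀ h0
        rw [h5 _ (hsT u), h5 _ (hsT v)]
      · have hcS' : ∀ u ∈ Tᶜ, ∀ v ∈ Tᶜ, G.Adj u v → (fun v => !(c v)) u ≠ (fun v => !(c v)) v := by
          intro u hu v hv huv
          have := hcS u hu v hv huv
          simpa using this
        have h0' : (fun v => !(c v)) s₀ = e s₀ := by
          show (!(c s₀)) = e s₀
          revert h0
          cases c s₀ <;> cases e s₀ <;> simp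
        have h5 := color_unique hS hcS' heS hs₀ h0'
        rw [← h5 _ (hsT u), ← h5 _ (hsT v)]
        simp
    revert h1 h2 h3 h4
    show _ → _ → _ → _ → (!(c (s u))) ≠ (!(c (s v)))
    cases e u <;> cases e v <;> cases e (s u) <;> cases e (s v) <;> cases c (s u) <;>
      cases c (s v) <;> simp
  obtain ⟨t, t', htt⟩ := hex
  obtain ⟨X, hXsub, hX⟩ := exists_cyc htt
  have hXT : ∀ v ∈ X, v ∈ T → v = t ∨ v = t' := by
    intro v hv hvT
    rcases hXsub hv with h | h
    · exact absurd hvT h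
    · simpa using h
  refine ⟨X, hX, ?_, ?_⟩
  · -- cardinality
    by_contra hle
    push Not at hle
    have hTcard : T.ncard ≤ k + 2 := by
      have h1 : T ⊆ Xᶜ ∪ {t, t'} := by
        intro v hv
        by_cases hvX : v ∈ X
        · right
          simpa using hXT v hvX hv
        · exact Or.inl hvX
      have h2 := Set.ncard_le_ncard h1 (Set.toFinite _)
      have h3 := Set.ncard_union_le Xᶜ {t, t'}
      have h4 := Set.ncard_insert_le t {t'}
      rw [Set.ncard_singleton] at h4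
      omega
    obtain ⟨x, -, hxT⟩ := (hT ∅ (by simp)).2.1
    have h1 : (T.toFinset.erase x).card ≤ k + 1 := by
      rw [Finset.card_erase_of_mem (by rw [Set.mem_toFinset]; exact hxT)]
      rw [Set.ncard_eq_toFinset_card'] at hTcard
      omega
    obtain ⟨v, hv, hvT, hxv⟩ := (hT _ h1).1 x (by simp)
    apply hv
    rw [mem_erase, Set.mem_toFinset]
    exact ⟨hxv.ne.symm, hvT⟩
  · intro S hSc
    set Y : Finset V := S ∪ ({t, t'} : Finset V).filter (fun v => v ∈ X) with hY
    have hYc : Y.card ≤ k + 1 := by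
      have h1 : Y.card ≤ S.card + (({t, t'} : Finset V).filter (fun v => v ∈ X)).card :=
        Finset.card_union_le _ _
      have h2 : (({t, t'} : Finset V).filter (fun v => v ∈ X)).card ≤ 2 :=
        (Finset.card_filter_le _ _).trans Finset.card_le_two
      omega
    obtain ⟨hdomY, hcnY⟩ := hT Y hYc
    have hsub : {v | v ∉ Y ∧ v ∈ T} ⊆ Xᶜ \ (S : Set V) := by
      rintro v ⟨hvY, hvT⟩
      rw [hY, mem_union, mem_filter] at hvY
      push Not at hvY
      refine ⟨?_, hvY.1⟩
      intro hvX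
      apply hvY.2 _ hvX
      simpa using hXT v hvX hvT
    refine ⟨hcnY.1.mono hsub, ?_⟩
    intro U hU hUne hUne2
    by_contra hno
    push Not at hno
    -- the connected set lies on one side
    have hnbr : ∀ v ∈ Xᶜ \ (S : Set V), ∃ z, z ∉ Y ∧ z ∈ T ∧ G.Adj v z := by
      rintro v ⟨hvX, hvS⟩
      apply hdomY
      rw [hY, mem_union, mem_filter]
      push Not
      exact ⟨hvS, fun _ => hvX⟩
    obtain ⟨a, ha⟩ := hUne
    obtain ⟨b, hb, hbU⟩ := hUne2
    obtain ⟨a', ha1, ha2, ha3⟩ := hnbr a (hU ha)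
    obtain ⟨b', hb1, hb2, hb3⟩ := hnbr b hb
    have haU : a' ∈ U := by
      by_contra hc
      exact hno a ha a' ⟨hsub ⟨ha1, ha2⟩, hc⟩ ha3
    have hbU' : b' ∉ U := by
      intro hc
      exact hno b' hc b ⟨hb, hbU⟩ hb3.symm
    obtain ⟨u, hu, w, hw, huw⟩ := hcnY.2 ({v | v ∉ Y ∧ v ∈ T} ∩ U) Set.inter_subset_left
      ⟨a', ⟨ha1, ha2⟩, haU⟩ ⟨b', ⟨hb1, hb2⟩, fun hc => hbU' hc.2⟩
    exact hno u hu.2 w ⟨hsub hw.1, fun hc => hw.2 ⟨hw.1, hc⟩⟩ huw

end Run7.h414
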