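import Pool.Agent.Run7.h414.Five

set_option autoImplicit false

namespace Run7.h414

open SimpleGraph

variable {V : Type*}

/-- The walk `c 0, c 1, …, c n`. -/
def wk {G : SimpleGraph V} {c : ℕ → V} (h : ∀ i, G.Adj (c i) (c (i + 1))) :
    (n : ℕ) → G.Walk (c 0) (c n)
  | 0 => Walk.nil
  | n + 1 => (wk h n).concat (h n)

theorem wk_length {G : SimpleGraph V} {c : ℕ → V} (h : ∀ i, G.Adj (c i) (c (i + 1))) (n : ℕ) :
    (wk h n).length = n := by
  induction n with
  | zero => rfl
  | succ n ih => rw [wk, Walk.length_concat, ih]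

theorem wk_support {G : SimpleGraph V} {c : ℕ → V} (h : ∀ i, G.Adj (c i) (c (i + 1))) (n : ℕ)
    (x : V) : x ∈ (wk h n).support ↔ ∃ i ≤ n, c i = x := by
  induction n with
  | zero =>
    simp only [wk, Walk.support_nil, List.mem_singleton]
    constructor
    · intro hx
      exact ⟨0, le_rfl, hx.symm⟩
    · rintro ⟨i, hi, rfl⟩
      have : i = 0 := by omega
      rw [this]
  | succ n ih =>
    rw [wk, Walk.support_concat, List.mem_append, ih, List.mem_singleton]
    constructor
    · rintro (⟨i, hi, rfl⟩ | rfl)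
      · exact ⟨i, by omega, rfl⟩
      · exact ⟨n + 1, le_rfl, rfl⟩
    · rintro ⟨i, hi, rfl⟩
      rcases Nat.lt_or_ge n i with h1 | h1
      · have : i = n + 1 := by omega
        rw [this]
        exact Or.inr rfl
      · exact Or.inl ⟨i, h1, rfl⟩

theorem wk_isPath {G : SimpleGraph V} {c : ℕ → V} (h : ∀ i, G.Adj (c i) (c (i + 1))) (n : ℕ)
    (hinj : ∀ i j, i < j → j ≤ n → c i ≠ c j) : (wk h n).IsPath := by
  induction n with
  | zero => exact Walk.IsPath.nil
  | succ n ih =>
    rw [wk, Walk.concat_isPath_iff]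
    refine ⟨ih (fun i j hij hj => hinj i j hij (by omega)), ?_⟩
    rw [wk_support]
    rintro ⟨i, hi, he⟩
    exact hinj i (n + 1) (by omega) le_rfl he

/-- The vertex set of an induced odd cycle carries an odd cycle. -/
theorem Cyc.exists_walk {G : SimpleGraph V} {X : Set V} (h : Cyc G X) :
    ∃ (v : V) (p : G.Walk v v), p.IsCycle ∧ Odd p.length ∧ ∀ x, x ∈ p.support ↔ x ∈ X := by
  classical
  obtain ⟨c, N, hp⟩ := h.param
  have h3 := hp.three
  have hlast : G.Adj (c (N - 1)) (c 0) := by
    have h1 := hp.step (N - 1)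
    have h2 : N - 1 + 1 = 0 + N := by omega
    rw [h2, hp.per] at h1
    exact h1
  have hpath : (wk hp.step (N - 1)).IsPath :=
    wk_isPath hp.step (N - 1) (fun i j hij hj => hp.inj i j hij (by omega))
  refine ⟨c (N - 1), Walk.cons hlast (wk hp.step (N - 1)), ?_, ?_, ?_⟩
  · rw [Walk.cons_isCycle_iff]
    refine ⟨hpath, ?_⟩
    intro he
    rw [Sym2.eq_swap] at he
    have h1 := hpath.length_eq_one_of_mem_edges he
    rw [wk_length] at h1
    omega
  · rw [Walk.length_cons, wk_length]
    have : N - 1 + 1 = N := by omega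
    rw [this]
    exact hp.odd
  · intro x
    rw [Walk.support_cons, List.mem_cons, wk_support]
    constructor
    · rintro (rfl | ⟨i, -, rfl⟩)
      · exact hp.mem _
      · exact hp.mem _
    · intro hx
      obtain ⟨i, hi, rfl⟩ := hp.exists_lt hx
      exact Or.inr ⟨i, by omega, rfl⟩

/-- An odd closed walk makes the graph non-two-colourable. -/
theorem not_bip_of_walk {G : SimpleGraph V} {v : V} (p : G.Walk v v) (h : Odd p.length) :
    ¬ Bip G Set.univ := by
  rintro ⟨c, hc⟩
  have key : ∀ (u w : V) (q : G.Walk u w), (c u = c w ↔ Even q.length) := by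
    intro u w q
    induction q with
    | nil => simp
    | @cons a b d hab q ih =>
      have h1 := hc a trivial b trivial hab
      rw [Walk.length_cons, Nat.even_add_one, ← ih]
      revert h1
      cases c a <;> cases c b <;> cases c d <;> simp
  have h1 := (key v v p).mp rfl
  exact (Nat.not_even_iff_odd.mpr h) h1

theorem kc_of_frozen [Fintype V] {G : SimpleGraph V} {f : ℕ}
    (h : ∀ S : Finset V, S.card < f → (G.induce ((↑S : Set V)ᶜ)).Connected) : KC G f := by
  classical
  intro S hS
  rw [cn_iff]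
  have h1 := h (Set.toFinite S).toFinset (by
    rw [← Set.ncard_eq_toFinset_card]
    exact hS)
  rw [Set.Finite.coe_toFinset] at h1
  exact h1

end Run7.h414
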