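import Pool.Agent.Run7.h414.Cycle

set_option autoImplicit false

namespace Run7.h414

open SimpleGraph

variable {V : Type*}

/-- `x` is adjacent to some vertex of `A`. -/
def Att (G : SimpleGraph V) (A : Set V) (x : V) : Prop := ∃ a ∈ A, G.Adj a x

theorem Param.edge {G : SimpleGraph V} {X : Set V} {c : ℕ → V} {N : ℕ} (h : Param G X c N)
    {x y : V} (hx : x ∈ X) (hy : y ∈ X) (hxy : G.Adj x y) :
    ∃ m < N, (x = c m ∧ y = c (m + 1)) ∨ (y = c m ∧ x = c (m + 1)) := by
  have key : ∀ x ∈ X, ∀ y ∈ X, G.Adj x y → ∀ i j, i < N → j < N → c i = x → c j = y → i < j →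
      ∃ m < N, (x = c m ∧ y = c (m + 1)) ∨ (y = c m ∧ x = c (m + 1)) := by
    intro x _ y _ hxy i j hi hj hix hjy hij
    rcases h.adj i j hij (by omega) (by rw [hix, hjy]; exact hxy) with h1 | h1
    · exact ⟨i, hi, Or.inl ⟨hix.symm, by rw [← h1, hjy]⟩⟩
    · have hi0 : i = 0 := by omega
      subst hi0
      refine ⟨j, hj, Or.inr ⟨hjy.symm, ?_⟩⟩
      have : j + 1 = 0 + N := by omega
      rw [this, h.per, hix]
  obtain ⟨i, hi, hix⟩ := h.exists_lt hx
  obtain ⟨j, hj, hjy⟩ := h.exists_lt hy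
  rcases lt_trichotomy i j with hij | hij | hij
  · exact key x hx y hy hxy i j hi hj hix hjy hij
  · exfalso
    have : x = y := by rw [← hix, ← hjy, hij]
    exact hxy.ne this
  · obtain ⟨m, hm, h1⟩ := key y hy x hx hxy.symm j i hj hi hjy hix hij
    exact ⟨m, hm, h1.symm⟩

theorem arc_cn {G : SimpleGraph V} {c : ℕ → V} (h : ∀ i, G.Adj (c i) (c (i + 1))) {i j : ℕ}
    (hij : i ≤ j) : Cn G (c '' Set.Icc i j) := by
  induction j, hij using Nat.le_induction with
  | base => simpa using cn_singleton G (c i)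
  | succ n hn ih =>
    have h1 : c '' Set.Icc i (n + 1) = c '' Set.Icc i n ∪ {c (n + 1)} := by
      ext x
      constructor
      · rintro ⟨m, ⟨h1, h2⟩, rfl⟩
        rcases Nat.lt_or_ge n m with h3 | h3
        · have : m = n + 1 := by omega
          right
          rw [this]
          rfl
        · exact Or.inl ⟨m, ⟨h1, h3⟩, rfl⟩
      · rintro (⟨m, ⟨h1, h2⟩, rfl⟩ | hx)
        · exact ⟨m, ⟨h1, by omega⟩, rfl⟩
        · exact ⟨n + 1, ⟨by omega, le_rfl⟩, hx.symm⟩
    rw [h1]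
    exact ih.union (cn_singleton G _) (Or.inr ⟨c n, ⟨n, ⟨hn, le_rfl⟩, rfl⟩, c (n + 1), rfl, h n⟩)

/-- Gluing two consecutive arcs at an attachment. -/
theorem arc_glue {G : SimpleGraph V} {X A : Set V} {c : ℕ → V} {N : ℕ} (h : Param G X c N)
    (hA : Cn G A) {i m j : ℕ} (him : i ≤ m) (hmj : m ≤ j) (hj : j + 1 < i + N)
    (hm : Att G A (c m)) (b1 : Bip G (A ∪ c '' Set.Icc i m))
    (b2 : Bip G (A ∪ c '' Set.Icc m j)) : Bip G (A ∪ c '' Set.Icc i j) := by
  have h0 := bip_glue hA (ι := Bool) (fun b => cond b (c '' Set.Icc i m) (c '' Set.Icc m j))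
    (by
      intro b
      cases b
      · exact b2
      · exact b1)
    (by
      have key : ∀ x, x ∈ c '' Set.Icc i m → x ∈ c '' Set.Icc m j →
          x ∈ A ∨ ∃ a ∈ A, G.Adj a x := by
        rintro x ⟨a, ⟨ha1, ha2⟩, rfl⟩ ⟨b, ⟨hb1, hb2⟩, hab⟩
        right
        rcases Nat.lt_or_ge a b with hlt | hge
        · exact absurd hab.symm (h.inj a b hlt (by omega))
        · have : a = m := by omega
          rw [this]
          exact hm
      intro b b' x hx hx' hne
      cases b <;> cases b'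
      · exact absurd rfl hne
      · exact key x hx' hx
      · exact key x hx hx'
      · exact absurd rfl hne)
    (by
      have hun : ∀ x ∈ ⋃ b : Bool, cond b (c '' Set.Icc i m) (c '' Set.Icc m j),
          ∃ a, i ≤ a ∧ a ≤ j ∧ c a = x := by
        intro x hx
        rw [Set.mem_iUnion] at hx
        obtain ⟨b, hb⟩ := hx
        cases b
        · obtain ⟨a, ⟨h1, h2⟩, h3⟩ := hb
          exact ⟨a, by omega, h2, h3⟩
        · obtain ⟨a, ⟨h1, h2⟩, h3⟩ := hb
          exact ⟨a, h1, by omega, h3⟩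
      have key : ∀ a b, i ≤ a → a < b → b ≤ j → G.Adj (c a) (c b) →
          ∃ b' : Bool, c a ∈ (cond b' (c '' Set.Icc i m) (c '' Set.Icc m j) : Set V) ∧
            c b ∈ (cond b' (c '' Set.Icc i m) (c '' Set.Icc m j) : Set V) := by
        intro a b hia hab hbj hadj
        rcases h.adj a b hab (by omega) hadj with h1 | h1
        · rcases Nat.lt_or_ge a m with h2 | h2
          · exact ⟨true, ⟨a, ⟨hia, by omega⟩, rfl⟩, ⟨b, ⟨by omega, by omega⟩, rfl⟩⟩
          · exact ⟨false, ⟨a, ⟨h2, by omega⟩, rfl⟩, ⟨b, ⟨by omega, hbj⟩, rfl⟩⟩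
        · omega
      intro x hx y hy hxy
      obtain ⟨a, ha1, ha2, rfl⟩ := hun x hx
      obtain ⟨b, hb1, hb2, rfl⟩ := hun y hy
      rcases lt_trichotomy a b with hab | hab | hab
      · exact key a b ha1 hab hb2 hxy
      · subst hab
        exact absurd rfl hxy.ne
      · obtain ⟨b', h1, h2⟩ := key b a hb1 hab ha2 hxy.symm
        exact ⟨b', h2, h1⟩)
  apply h0.mono
  apply Set.union_subset_union_right
  rintro x ⟨a, ⟨ha1, ha2⟩, rfl⟩
  rw [Set.mem_iUnion]
  rcases Nat.lt_or_ge a m with h2 | h2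
  · exact ⟨true, ⟨a, ⟨ha1, by omega⟩, rfl⟩⟩
  · exact ⟨false, ⟨a, ⟨h2, ha2⟩, rfl⟩⟩

theorem three_arcs {G : SimpleGraph V} {X A : Set V} {c : ℕ → V} {N : ℕ} (h : Param G X c N)
    (hX : ¬ Bip G X) (hA : Cn G A) {p q r : ℕ} (hpq : p < q) (hqr : q < r) (hr : r < N)
    (ap : Att G A (c p)) (aq : Att G A (c q)) (ar : Att G A (c r)) :
    ∃ i t, t + 2 ≤ N ∧ ¬ Bip G (A ∪ c '' Set.Icc i (i + t)) := by
  by_contra hcon
  push Not at hcon
  apply hX
  have hlo : ∀ j : Fin 3, Att G A (c ((![p, q, r] : Fin 3 → ℕ) j)) := by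
    intro j
    fin_cases j
    · exact ap
    · exact aq
    · exact ar
  have h0 := bip_glue hA (ι := Fin 3)
    (fun j => c '' Set.Icc ((![p, q, r] : Fin 3 → ℕ) j) ((![q, r, p + N] : Fin 3 → ℕ) j))
    (by
      intro j
      fin_cases j
      · have := hcon p (q - p) (by omega)
        have e : p + (q - p) = q := by omega
        rw [e] at this
        exact this
      · have := hcon q (r - q) (by omega)
        have e : q + (r - q) = r := by omega
        rw [e] at this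
        exact this
      · have := hcon r (p + N - r) (by omega)
        have e : r + (p + N - r) = p + N := by omega
        rw [e] at this
        exact this)
    (by
      have key : ∀ (j l : Fin 3) (x : V), j < l →
          x ∈ c '' Set.Icc ((![p, q, r] : Fin 3 → ℕ) j) ((![q, r, p + N] : Fin 3 → ℕ) j) →
          x ∈ c '' Set.Icc ((![p, q, r] : Fin 3 → ℕ) l) ((![q, r, p + N] : Fin 3 → ℕ) l) →
          x ∈ A ∨ ∃ a ∈ A, G.Adj a x := by
        rintro j l x hjl ⟨a, ⟨ha1, ha2⟩, rfl⟩ ⟨b, ⟨hb1, hb2⟩, hab⟩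
        right
        have e1 : p ≤ (![p, q, r] : Fin 3 → ℕ) j := by
          fin_cases j <;> simp <;> omega
        have e2 : (![q, r, p + N] : Fin 3 → ℕ) l ≤ p + N := by
          fin_cases l <;> simp <;> omega
        have e3 : (![q, r, p + N] : Fin 3 → ℕ) j ≤ (![p, q, r] : Fin 3 → ℕ) l := by
          fin_cases j <;> fin_cases l <;> simp at hjl ⊢ <;> omega
        rcases Nat.lt_or_ge a b with hlt | hge
        · have h5 : a + N ≤ b := by
            by_contra h6
            exact absurd hab.symm (h.inj a b hlt (by omega))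
          have h7 : a = p := by omega
          rw [h7]
          exact ap
        · have h5 : a = (![p, q, r] : Fin 3 → ℕ) l := by omega
          rw [h5]
          exact hlo l
      intro j l x hj hl hjl
      rcases lt_trichotomy j l with hlt | heq | hgt
      · exact key j l x hlt hj hl
      · exact absurd heq hjl
      · exact key l j x hgt hl hj)
    (by
      have hsub : ∀ x ∈ ⋃ j : Fin 3, c '' Set.Icc ((![p, q, r] : Fin 3 → ℕ) j)
          ((![q, r, p + N] : Fin 3 → ℕ) j), x ∈ X := by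
        intro x hx
        rw [Set.mem_iUnion] at hx
        obtain ⟨j, a, -, rfl⟩ := hx
        exact h.mem a
      intro x hx y hy hxy
      obtain ⟨m0, hm0, h1⟩ := h.edge (hsub x hx) (hsub y hy) hxy
      -- move into the window [p, p + N)
      have h2 : ∃ m, p ≤ m ∧ m < p + N ∧ c m = c m0 ∧ c (m + 1) = c (m0 + 1) := by
        rcases Nat.lt_or_ge m0 p with h3 | h3
        · refine ⟨m0 + N, by omega, by omega, h.per m0, ?_⟩
          have : m0 + N + 1 = m0 + 1 + N := by omega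
          rw [this, h.per]
        · exact ⟨m0, h3, by omega, rfl, rfl⟩
      obtain ⟨m, hm1, hm2, hm3, hm4⟩ := h2
      rw [← hm3, ← hm4] at h1
      have h4 : ∃ j : Fin 3, (![p, q, r] : Fin 3 → ℕ) j ≤ m ∧
          m + 1 ≤ (![q, r, p + N] : Fin 3 → ℕ) j := by
        rcases Nat.lt_or_ge m q with h5 | h5
        · exact ⟨0, by simpa using hm1, by simpa using h5⟩
        rcases Nat.lt_or_ge m r with h6 | h6
        · exact ⟨1, by simpa using h5, by simpa using h6⟩
        · exact ⟨2, by simpa using h6, by simpa using hm2⟩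
      obtain ⟨j, hj1, hj2⟩ := h4
      refine ⟨j, ?_⟩
      have h8 : c m ∈ c '' Set.Icc ((![p, q, r] : Fin 3 → ℕ) j)
          ((![q, r, p + N] : Fin 3 → ℕ) j) := ⟨m, ⟨hj1, by omega⟩, rfl⟩
      have h9 : c (m + 1) ∈ c '' Set.Icc ((![p, q, r] : Fin 3 → ℕ) j)
          ((![q, r, p + N] : Fin 3 → ℕ) j) := ⟨m + 1, ⟨by omega, hj2⟩, rfl⟩
      rcases h1 with ⟨rfl, rfl⟩ | ⟨rfl, rfl⟩
      · exact ⟨h8, h9⟩
      · exact ⟨h9, h8⟩)
  apply h0.mono
  intro x hx
  right
  obtain ⟨i0, hi0, rfl⟩ := h.exists_lt hx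
  have h2 : ∃ m, p ≤ m ∧ m < p + N ∧ c m = c i0 := by
    rcases Nat.lt_or_ge i0 p with h3 | h3
    · exact ⟨i0 + N, by omega, by omega, h.per i0⟩
    · exact ⟨i0, h3, by omega, rfl⟩
  obtain ⟨m, hm1, hm2, hm3⟩ := h2
  rw [← hm3, Set.mem_iUnion]
  rcases Nat.lt_or_ge m q with h5 | h5
  · exact ⟨0, m, ⟨by simpa using hm1, by simpa using h5.le⟩, rfl⟩
  rcases Nat.lt_or_ge m r with h6 | h6
  · exact ⟨1, m, ⟨by simpa using h5, by simpa using h6.le⟩, rfl⟩
  · exact ⟨2, m, ⟨by simpa using h6, by simpa using hm2.le⟩, rfl⟩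

/-- The arc lemma. -/
theorem arc_lemma {G : SimpleGraph V} {X A : Set V} (hX : Cyc G X) (hA : Cn G A)
    {x y z : V} (hx : x ∈ X) (hy : y ∈ X) (hz : z ∈ X) (hxy : x ≠ y) (hyz : y ≠ z)
    (hxz : x ≠ z) (ax : Att G A x) (ay : Att G A y) (az : Att G A z) :
    ∃ α ⊆ X, ∃ e₁ ∈ α, ∃ e₂ ∈ α, ¬ Bip G (A ∪ α) ∧ Cn G (X \ α) ∧
      ∀ w ∈ α, w ≠ e₁ → w ≠ e₂ → ∀ u ∈ A ∪ (X \ α), ¬ G.Adj u w := by
  classical
  obtain ⟨c, N, h⟩ := hX.param
  have hex : ∃ t, t + 2 ≤ N ∧ ∃ i, ¬ Bip G (A ∪ c '' Set.Icc i (i + t)) := by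
    obtain ⟨i, hi, rfl⟩ := h.exists_lt hx
    obtain ⟨j, hj, rfl⟩ := h.exists_lt hy
    obtain ⟨k, hk, rfl⟩ := h.exists_lt hz
    have hij : i ≠ j := fun e => hxy (by rw [e])
    have hjk : j ≠ k := fun e => hyz (by rw [e])
    have hik : i ≠ k := fun e => hxz (by rw [e])
    have key : ∀ p q r : ℕ, p < q → q < r → r < N → Att G A (c p) → Att G A (c q) →
        Att G A (c r) → ∃ t, t + 2 ≤ N ∧ ∃ i, ¬ Bip G (A ∪ c '' Set.Icc i (i + t)) := by
      intro p q r h1 h2 h3 a1 a2 a3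
      obtain ⟨i, t, h4, h5⟩ := three_arcs h hX.1 hA h1 h2 h3 a1 a2 a3
      exact ⟨t, h4, i, h5⟩
    rcases lt_or_gt_of_ne hij with h1 | h1 <;> rcases lt_or_gt_of_ne hjk with h2 | h2 <;>
      rcases lt_or_gt_of_ne hik with h3 | h3
    · exact key i j k h1 h2 hk ax ay az
    · omega
    · exact key i k j h3 h2 hj ax az ay
    · exact key k i j h3 h1 hj az ax ay
    · exact key j i k h1 h3 hk ay ax az
    · exact key j k i h2 h3 hi ay az ax
    · omega
    · exact key k j i h2 h1 hi az ay ax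
  have hspec := Nat.find_spec hex
  have hmin : ∀ t, t < Nat.find hex → ¬ (t + 2 ≤ N ∧ ∃ i, ¬ Bip G (A ∪ c '' Set.Icc i (i + t))) :=
    fun t ht => Nat.find_min hex ht
  generalize Nat.find hex = t at hspec hmin
  obtain ⟨ht, i, hi⟩ := hspec
  have hmin' : ∀ s, s < t → ∀ i, Bip G (A ∪ c '' Set.Icc i (i + s)) := by
    intro s hs i
    by_contra hc
    exact hmin s hs ⟨by omega, i, hc⟩
  -- the complement of the arc is the opposite arc
  have hcompl : X \ (c '' Set.Icc i (i + t)) = c '' Set.Icc (i + t + 1) (i + N - 1) := by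
    apply Set.Subset.antisymm
    · rintro w ⟨hwX, hw⟩
      obtain ⟨s, hs, rfl⟩ := (h.shift i).exists_lt hwX
      refine ⟨i + s, ⟨?_, by omega⟩, rfl⟩
      by_contra hlt
      exact hw ⟨i + s, ⟨by omega, by omega⟩, rfl⟩
    · rintro w ⟨s, ⟨hs1, hs2⟩, rfl⟩
      refine ⟨h.mem s, ?_⟩
      rintro ⟨s', ⟨h1, h2⟩, h3⟩
      exact h.inj s' s (by omega) (by omega) h3
  refine ⟨c '' Set.Icc i (i + t), ?_, c i, ⟨i, ⟨le_rfl, by omega⟩, rfl⟩, c (i + t),
    ⟨i + t, ⟨by omega, le_rfl⟩, rfl⟩, hi, ?_, ?_⟩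
  · rintro w ⟨s, -, rfl⟩
    exact h.mem s
  · rw [hcompl]
    exact arc_cn h.step (by omega)
  · rintro w ⟨s, ⟨hs1, hs2⟩, rfl⟩ hne1 hne2 u hu hadj
    have hsi : s ≠ i := fun e => hne1 (by rw [e])
    have hst : s ≠ i + t := fun e => hne2 (by rw [e])
    rcases hu with hu | hu
    · -- adjacency to `A`
      apply hi
      have e1 : i + (s - i) = s := by omega
      have e2 : s + (i + t - s) = i + t := by omega
      have b1 := hmin' (s - i) (by omega) i
      have b2 := hmin' (i + t - s) (by omega) s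
      rw [e1] at b1
      rw [e2] at b2
      exact arc_glue h hA hs1 hs2 (by omega) ⟨u, hu, hadj⟩ b1 b2
    · rw [hcompl] at hu
      obtain ⟨s', ⟨h1, h2⟩, rfl⟩ := hu
      rcases h.adj s s' (by omega) (by omega) hadj.symm with h3 | h3
      · omega
      · omega

end Run7.h414
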