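import Pool.Agent.Run7.h414.Levels

set_option autoImplicit false

namespace Run7.h414

open SimpleGraph Finset
open scoped Classical

variable {V : Type*} [Fintype V]

theorem weight_bound (P : V → Finset ℕ) (h : V → ℕ → ℝ) (Z : Finset V) (ρ : ℝ)
    (h0 : ∀ v c, 0 ≤ h v c) (h1 : ∀ v, ∀ c ∈ P v, h v c ≤ 1)
    (h2 : ∀ v ∈ Z, ∑ c ∈ P v, h v c ≤ ρ * ((P v).card : ℝ)) :
    ∑ ω ∈ Fintype.piFinset P, ∏ v, h v (ω v) ≤
      ρ ^ Z.card * ((Fintype.piFinset P).card : ℝ) := by
  rw [← Finset.prod_univ_sum, Fintype.card_piFinset]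
  push_cast
  calc ∏ v, ∑ c ∈ P v, h v c
      ≤ ∏ v, ((if v ∈ Z then ρ else 1) * ((P v).card : ℝ)) := by
        apply Finset.prod_le_prod
        · intro v _
          exact Finset.sum_nonneg (fun c _ => h0 v c)
        · intro v _
          by_cases hv : v ∈ Z
          · rw [if_pos hv]
            exact h2 v hv
          · rw [if_neg hv, one_mul]
            calc ∑ c ∈ P v, h v c ≤ ∑ c ∈ P v, (1 : ℝ) := Finset.sum_le_sum (h1 v)
              _ = ((P v).card : ℝ) := by simp
    _ = ρ ^ Z.card * ∏ v, ((P v).card : ℝ) := by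
        rw [Finset.prod_mul_distrib]
        congr 1
        rw [Finset.prod_ite_mem, Finset.univ_inter, Finset.prod_const]

/-- The sample space: levels `0, …, M - 1`. -/
noncomputable def Om (V : Type*) [Fintype V] (M : ℕ) : Finset (V → ℕ) :=
  Fintype.piFinset (fun _ : V => range M)

theorem mem_Om {M : ℕ} {ω : V → ℕ} : ω ∈ Om V M ↔ ∀ v, ω v < M := by
  simp [Om, Fintype.mem_piFinset]

theorem card_filter_le_real (M l : ℕ) (hl : l ≤ M) :
    (((range M).filter (fun c => l ≤ c)).card : ℝ) = (M : ℝ) - l := by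
  have : (range M).filter (fun c => l ≤ c) = Ico l M := by
    ext c
    simp only [mem_filter, mem_range, mem_Ico]
    tauto
  rw [this, Nat.card_Ico, Nat.cast_sub hl]

/-- Failure of domination at a vertex is rare. -/
theorem dom_count (G : SimpleGraph V) (W : Finset V) {g r l : ℕ} (hr : r ≤ l) (hl : l ≤ 4 * r)
    (hdeg : ∀ w ∈ W, g ≤ (W.filter (fun v => G.Adj w v)).card) :
    (((Om V (4 * r)).filter (fun ω => ¬ Dom G W l ω)).card : ℝ) ≤
      (Fintype.card V : ℝ) * ((3 / 4 : ℝ) ^ g * ((Om V (4 * r)).card : ℝ)) := by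
  have hone : ∀ w ∈ W, (((Om V (4 * r)).filter
      (fun ω => ∀ v ∈ W.filter (fun v => G.Adj w v), l ≤ ω v)).card : ℝ) ≤
      (3 / 4 : ℝ) ^ g * ((Om V (4 * r)).card : ℝ) := by
    intro w hw
    set N := W.filter (fun v => G.Adj w v) with hN
    have h1 := weight_bound (V := V) (fun _ => range (4 * r))
      (fun v c => if (v ∈ N → l ≤ c) then 1 else 0) N (3 / 4)
      (fun v c => by split_ifs <;> norm_num) (fun v c _ => by split_ifs <;> norm_num)
      (by
        intro v hv
        have e : ∑ c ∈ range (4 * r), (if (v ∈ N → l ≤ c) then (1 : ℝ) else 0) =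
            (((range (4 * r)).filter (fun c => l ≤ c)).card : ℝ) := by
          rw [← Finset.sum_boole]
          apply Finset.sum_congr rfl
          intro c _
          simp [hv]
        rw [e, card_filter_le_real _ _ hl, card_range]
        push_cast
        have : (r : ℝ) ≤ l := by exact_mod_cast hr
        linarith)
    have h2 : ∑ ω ∈ Fintype.piFinset (fun _ : V => range (4 * r)),
        ∏ v, (if (v ∈ N → l ≤ ω v) then (1 : ℝ) else 0) =
        (((Om V (4 * r)).filter (fun ω => ∀ v ∈ N, l ≤ ω v)).card : ℝ) := by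
      rw [← Finset.sum_boole]
      apply Finset.sum_congr rfl
      intro ω _
      rw [Finset.prod_ite_zero]
      simp
    rw [h2] at h1
    refine h1.trans ?_
    have h3 : (3 / 4 : ℝ) ^ N.card ≤ (3 / 4 : ℝ) ^ g :=
      pow_le_pow_of_le_one (by norm_num) (by norm_num) (hdeg w hw)
    exact mul_le_mul_of_nonneg_right h3 (by positivity)
  have hsub : (Om V (4 * r)).filter (fun ω => ¬ Dom G W l ω) ⊆
      W.biUnion (fun w => (Om V (4 * r)).filter
        (fun ω => ∀ v ∈ W.filter (fun v => G.Adj w v), l ≤ ω v)) := by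
    intro ω hω
    rw [mem_filter] at hω
    obtain ⟨hω, hnd⟩ := hω
    unfold Dom at hnd
    push Not at hnd
    obtain ⟨w, hw, h1⟩ := hnd
    rw [mem_biUnion]
    refine ⟨w, hw, ?_⟩
    rw [mem_filter]
    refine ⟨hω, ?_⟩
    intro v hv
    rw [mem_filter] at hv
    exact h1 v hv.1 hv.2
  have h4 := (Finset.card_le_card hsub).trans Finset.card_biUnion_le
  have h5 : (((Om V (4 * r)).filter (fun ω => ¬ Dom G W l ω)).card : ℝ) ≤
      ∑ w ∈ W, (((Om V (4 * r)).filter
        (fun ω => ∀ v ∈ W.filter (fun v => G.Adj w v), l ≤ ω v)).card : ℝ) := by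
    exact_mod_cast h4
  refine h5.trans ?_
  refine (Finset.sum_le_sum hone).trans ?_
  rw [Finset.sum_const, nsmul_eq_mul]
  apply mul_le_mul_of_nonneg_right _ (by positivity)
  exact_mod_cast Finset.card_le_univ W

/-- A large matching between the boundary of `Ξ` and the rest. -/
theorem exists_matching {G : SimpleGraph V} {W Ξ : Finset V} {g m : ℕ} (hgm : 2 * m ≤ g)
    (hKC : ∀ S : Set V, S.ncard < g → Cn G ((W : Set V) \ S)) (hΞW : Ξ ⊆ W)
    (hΞ : Ξ.Nonempty) (hW2 : m ≤ (W.filter (fun v => v ∉ Ξ ∧ v ∉ bd G W Ξ)).card) :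
    ∃ (Z : Finset V) (f : V → V), Z ⊆ W.filter (fun v => v ∉ Ξ ∧ v ∉ bd G W Ξ) ∧
      Set.InjOn f (Z : Set V) ∧ (∀ z ∈ Z, f z ∈ bd G W Ξ ∧ G.Adj (f z) z) ∧ m ≤ Z.card := by
  set W2 := W.filter (fun v => v ∉ Ξ ∧ v ∉ bd G W Ξ) with hW2def
  obtain ⟨Z, hZ, hmax⟩ := Finset.exists_max_image
    (univ.filter (fun Z : Finset V => Z ⊆ W2 ∧ ∃ f : V → V, Set.InjOn f (Z : Set V) ∧
      ∀ z ∈ Z, f z ∈ bd G W Ξ ∧ G.Adj (f z) z)) (fun Z => Z.card)
    ⟨∅, by
      rw [mem_filter]
      exact ⟨mem_univ _, Finset.empty_subset _, id, by simp, by simp⟩⟩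
  rw [mem_filter] at hZ
  obtain ⟨-, hZW, f, hf, hfZ⟩ := hZ
  refine ⟨Z, f, hZW, hf, hfZ, ?_⟩
  by_contra hlt
  push Not at hlt
  -- the cover
  set S : Set V := (Z : Set V) ∪ ((Z.image f : Finset V) : Set V) with hS
  have hScard : S.ncard < g := by
    have h1 : S.ncard ≤ (Z : Set V).ncard + ((Z.image f : Finset V) : Set V).ncard :=
      Set.ncard_union_le _ _
    rw [Set.ncard_coe_finset, Set.ncard_coe_finset] at h1
    have h2 : (Z.image f).card ≤ Z.card := Finset.card_image_le
    omega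
  have hcn := hKC S hScard
  obtain ⟨x, hx⟩ := hΞ
  have hbdW : ∀ v ∈ bd G W Ξ, v ∈ W ∧ v ∉ Ξ := by
    intro v hv
    unfold bd at hv
    rw [mem_filter] at hv
    exact ⟨hv.1, hv.2.1⟩
  have hxS : x ∉ S := by
    rintro (h1 | h1)
    · have := hZW h1
      rw [hW2def, mem_filter] at this
      exact this.2.1 hx
    · rw [mem_coe, mem_image] at h1
      obtain ⟨z, hz, hzx⟩ := h1
      have := (hbdW _ (hfZ z hz).1).2
      rw [hzx] at this
      exact this hx
  obtain ⟨y, hy, hyZ⟩ : ∃ y ∈ W2, y ∉ Z := by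
    by_contra hcon
    push Not at hcon
    have := Finset.card_le_card (show W2 ⊆ Z from hcon)
    omega
  have hy' := hy
  rw [hW2def, mem_filter] at hy'
  have hyS : y ∉ S := by
    rintro (h1 | h1)
    · exact hyZ h1
    · rw [mem_coe, mem_image] at h1
      obtain ⟨z, hz, hzx⟩ := h1
      apply hy'.2.2
      rw [← hzx]
      exact (hfZ z hz).1
  obtain ⟨u, hu, w, hw, huw⟩ := hcn.2 {v | v ∉ S ∧ (v ∈ Ξ ∨ v ∈ bd G W Ξ)}
    (by
      rintro v ⟨hv1, hv2 | hv2⟩
      · exact ⟨hΞW hv2, hv1⟩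
      · exact ⟨(hbdW v hv2).1, hv1⟩)
    ⟨x, hxS, Or.inl hx⟩
    ⟨y, ⟨hy'.1, hyS⟩, fun hc => hc.2.elim hy'.2.1 hy'.2.2⟩
  obtain ⟨⟨hwW, hwS⟩, hwn⟩ := hw
  have hwΞ : w ∉ Ξ := fun h => hwn ⟨hwS, Or.inl h⟩
  have hwbd : w ∉ bd G W Ξ := fun h => hwn ⟨hwS, Or.inr h⟩
  have hwW2 : w ∈ W2 := by
    rw [hW2def, mem_filter]
    exact ⟨hwW, hwΞ, hwbd⟩
  have hwZ : w ∉ Z := fun h => hwS (Or.inl h)
  rcases hu.2 with huΞ | hubd
  · apply hwbd
    unfold bd
    rw [mem_filter]
    exact ⟨hwW, hwΞ, u, huΞ, huw⟩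
  · -- extend the matching
    have hunot : ∀ z ∈ Z, f z ≠ u := by
      intro z hz he
      apply hu.1
      right
      rw [mem_coe, mem_image]
      exact ⟨z, hz, he⟩
    have hupd : ∀ z ∈ Z, Function.update f w u z = f z := by
      intro z hz
      rw [Function.update_of_ne]
      intro he
      exact hwZ (he ▸ hz)
    have hmem : insert w Z ∈ (univ.filter (fun Z : Finset V => Z ⊆ W2 ∧ ∃ f : V → V,
        Set.InjOn f (Z : Set V) ∧ ∀ z ∈ Z, f z ∈ bd G W Ξ ∧ G.Adj (f z) z)) := by
      rw [mem_filter]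
      refine ⟨mem_univ _, ?_, Function.update f w u, ?_, ?_⟩
      · intro z hz
        rcases Finset.mem_insert.mp hz with rfl | hz
        · exact hwW2
        · exact hZW hz
      · intro a ha b hb hab
        rw [mem_coe, mem_insert] at ha hb
        rcases ha with rfl | ha <;> rcases hb with rfl | hb
        · rfl
        · rw [Function.update_self, hupd b hb] at hab
          exact absurd hab.symm (hunot b hb)
        · rw [Function.update_self, hupd a ha] at hab
          exact absurd hab (hunot a ha)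
        · rw [hupd a ha, hupd b hb] at hab
          exact hf ha hb hab
      · intro z hz
        rcases Finset.mem_insert.mp hz with rfl | hz
        · rw [Function.update_self]
          exact ⟨hubd, huw⟩
        · rw [hupd z hz]
          exact hfZ z hz
    have h9 := hmax _ hmem
    rw [Finset.card_insert_of_notMem hwZ] at h9
    omega

/-- A component with few connectors, although there are low vertices outside it. -/
def Few (G : SimpleGraph V) (W : Finset V) (l θ : ℕ) (ω : V → ℕ) (Ξ : Finset V) : Prop :=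
  IsC G W l ω Ξ ∧ (∃ z ∈ W, z ∉ Ξ ∧ ω z < l) ∧ (conn G W l ω Ξ).card < θ

theorem type1_single (G : SimpleGraph V) (W : Finset V) {g m θ r l : ℕ} (hgm : 2 * m ≤ g)
    (hθ : θ ≤ m) (hr : r ≤ l) (hl : l ≤ 4 * r)
    (hKC : ∀ S : Set V, S.ncard < g → Cn G ((W : Set V) \ S))
    (hdeg : ∀ w ∈ W, g ≤ (W.filter (fun v => G.Adj w v)).card) (Ξ : Finset V) :
    (((Om V (4 * r)).filter (fun ω => Few G W l θ ω Ξ)).card : ℝ) ≤
      2 ^ θ * (7 / 8 : ℝ) ^ m * (((Om V (4 * r)).filter (fun ω => IsC G W l ω Ξ)).card : ℝ) := by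
  by_cases hs : Ξ ⊆ W ∧ Cn G (Ξ : Set V)
  swap
  · have h1 : (Om V (4 * r)).filter (fun ω => Few G W l θ ω Ξ) = ∅ := by
      apply Finset.filter_eq_empty_iff.mpr
      intro ω _ hf
      exact hs ⟨hf.1.1, hf.1.2.1⟩
    rw [h1]
    simp only [card_empty, Nat.cast_zero]
    positivity
  obtain ⟨hΞW, hΞcn⟩ := hs
  have hbdW : ∀ v ∈ bd G W Ξ, v ∈ W ∧ v ∉ Ξ := by
    intro v hv
    unfold bd at hv
    rw [mem_filter] at hv
    exact ⟨hv.1, hv.2.1⟩
  set P : V → Finset ℕ := fun v => if v ∈ Ξ then range l else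
    if v ∈ bd G W Ξ then Ico l (4 * r) else range (4 * r) with hP
  have hPeq : (Om V (4 * r)).filter (fun ω => IsC G W l ω Ξ) = Fintype.piFinset P := by
    ext ω
    rw [mem_filter, mem_Om, Fintype.mem_piFinset]
    constructor
    · rintro ⟨h1, h2⟩ v
      simp only [hP]
      split_ifs with h3 h4
      · rw [mem_range]
        exact h2.2.2.1 v h3
      · rw [mem_Ico]
        exact ⟨h2.2.2.2 v h4, h1 v⟩
      · rw [mem_range]
        exact h1 v
    · intro h1
      have h2 : ∀ v ∈ Ξ, ω v < l := by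
        intro v hv
        have := h1 v
        simp only [hP, if_pos hv, mem_range] at this
        exact this
      have h3 : ∀ v ∈ bd G W Ξ, l ≤ ω v ∧ ω v < 4 * r := by
        intro v hv
        have := h1 v
        simp only [hP, if_neg (hbdW v hv).2, if_pos hv, mem_Ico] at this
        exact this
      refine ⟨?_, hΞW, hΞcn, h2, fun v hv => (h3 v hv).1⟩
      intro v
      by_cases hv : v ∈ Ξ
      · have := h2 v hv
        omega
      by_cases hv' : v ∈ bd G W Ξ
      · exact (h3 v hv').2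
      · have := h1 v
        simp only [hP, if_neg hv, if_neg hv', mem_range] at this
        exact this
  rcases Nat.lt_or_ge (W.filter (fun v => v ∉ Ξ ∧ v ∉ bd G W Ξ)).card m with hsmall | hbig
  · -- few vertices beyond the boundary
    have h1 : (Om V (4 * r)).filter (fun ω => Few G W l θ ω Ξ) = ∅ := by
      apply Finset.filter_eq_empty_iff.mpr
      rintro ω _ ⟨hIs, ⟨z, hzW, hzΞ, hzl⟩, hfew⟩
      have hzbd : z ∉ bd G W Ξ := by
        intro h
        have := hIs.2.2.2 z h
        omega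
      have h2 : W.filter (fun v => G.Adj z v) ⊆
          W.filter (fun v => v ∉ Ξ ∧ v ∉ bd G W Ξ) ∪ conn G W l ω Ξ := by
        intro y hy
        rw [mem_filter] at hy
        have hyΞ : y ∉ Ξ := by
          intro h
          apply hzbd
          unfold bd
          rw [mem_filter]
          exact ⟨hzW, hzΞ, y, h, hy.2.symm⟩
        rw [mem_union]
        by_cases hybd : y ∈ bd G W Ξ
        · right
          unfold conn
          rw [mem_filter]
          exact ⟨hybd, z, hzW, hzΞ, hzl, hy.2.symm⟩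
        · left
          rw [mem_filter]
          exact ⟨hy.1, hyΞ, hybd⟩
      have h3 := (Finset.card_le_card h2).trans (Finset.card_union_le _ _)
      have h4 := hdeg z hzW
      omega
    rw [h1]
    simp only [card_empty, Nat.cast_zero]
    positivity
  · obtain ⟨Z, f, hZ, hf, hfZ, hZm⟩ := exists_matching hgm hKC hΞW
      (by obtain ⟨x, hx⟩ := hΞcn.1; exact ⟨x, hx⟩) hbig
    have hZn : ∀ z ∈ Z, z ∈ W ∧ z ∉ Ξ ∧ z ∉ bd G W Ξ := by
      intro z hz
      have := hZ hz
      rw [mem_filter] at this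
      exact this
    have h1 := weight_bound P (fun v c => if (v ∈ Z ∧ c < l) then (1 / 2 : ℝ) else 1) Z (7 / 8)
      (fun v c => by split_ifs <;> norm_num)
      (fun v c _ => by split_ifs <;> norm_num) (by
        intro v hv
        have hPv : P v = range (4 * r) := by
          simp only [hP, if_neg (hZn v hv).2.1, if_neg (hZn v hv).2.2]
        rw [hPv, card_range]
        have e : ∑ c ∈ range (4 * r), (if (v ∈ Z ∧ c < l) then (1 / 2 : ℝ) else 1) =
            ((4 * r : ℕ) : ℝ) - (l : ℝ) / 2 := by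
          have e1 : ∀ c ∈ range (4 * r), (if (v ∈ Z ∧ c < l) then (1 / 2 : ℝ) else 1) =
              1 - (1 / 2) * (if c < l then 1 else 0) := by
            intro c _
            by_cases hc : c < l
            · simp only [hv, hc, and_self, if_true]
              norm_num
            · simp [hc]
          rw [Finset.sum_congr rfl e1, Finset.sum_sub_distrib, ← Finset.mul_sum,
            Finset.sum_boole]
          have e2 : (range (4 * r)).filter (fun c => c < l) = range l := by
            ext c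
            simp only [mem_filter, mem_range]
            omega
          rw [e2]
          simp
          ring
        rw [e]
        push_cast
        have : (r : ℝ) ≤ l := by exact_mod_cast hr
        linarith)
    have h2 : (((Om V (4 * r)).filter (fun ω => Few G W l θ ω Ξ)).card : ℝ) ≤
        2 ^ θ * ∑ ω ∈ Fintype.piFinset P, ∏ v, (if (v ∈ Z ∧ ω v < l) then (1 / 2 : ℝ) else 1) := by
      have h3 : (Om V (4 * r)).filter (fun ω => Few G W l θ ω Ξ) ⊆ Fintype.piFinset P := by
        rw [← hPeq]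
        intro ω hω
        rw [mem_filter] at hω ⊢
        exact ⟨hω.1, hω.2.1⟩
      have h4 : ∀ ω ∈ (Om V (4 * r)).filter (fun ω => Few G W l θ ω Ξ), (1 : ℝ) ≤
          2 ^ θ * ∏ v, (if (v ∈ Z ∧ ω v < l) then (1 / 2 : ℝ) else 1) := by
        intro ω hω
        rw [mem_filter] at hω
        obtain ⟨-, hIs, -, hfew⟩ := hω
        rw [Finset.prod_ite, Finset.prod_const, Finset.prod_const, one_pow, mul_one]
        have h5 : (univ.filter (fun v => v ∈ Z ∧ ω v < l)).card ≤ (conn G W l ω Ξ).card := by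
          apply Finset.card_le_card_of_injOn f
          · intro z hz
            rw [mem_coe, mem_filter] at hz
            obtain ⟨-, hzZ, hzl⟩ := hz
            unfold conn
            rw [mem_coe, mem_filter]
            exact ⟨(hfZ z hzZ).1, z, (hZn z hzZ).1, (hZn z hzZ).2.1, hzl, (hfZ z hzZ).2⟩
          · intro a ha b hb hab
            rw [mem_coe, mem_filter] at ha hb
            exact hf ha.2.1 hb.2.1 hab
        have h6 : (1 / 2 : ℝ) ^ θ ≤ (1 / 2 : ℝ) ^ (univ.filter (fun v => v ∈ Z ∧ ω v < l)).card :=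
          pow_le_pow_of_le_one (by norm_num) (by norm_num) (by omega)
        have h7 : (2 : ℝ) ^ θ * (1 / 2 : ℝ) ^ θ = 1 := by
          rw [← mul_pow]
          norm_num
        calc (1 : ℝ) = 2 ^ θ * (1 / 2 : ℝ) ^ θ := h7.symm
          _ ≤ _ := mul_le_mul_of_nonneg_left h6 (by positivity)
      calc (((Om V (4 * r)).filter (fun ω => Few G W l θ ω Ξ)).card : ℝ)
          = ∑ ω ∈ (Om V (4 * r)).filter (fun ω => Few G W l θ ω Ξ), (1 : ℝ) := by simp
        _ ≤ ∑ ω ∈ (Om V (4 * r)).filter (fun ω => Few G W l θ ω Ξ),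
            2 ^ θ * ∏ v, (if (v ∈ Z ∧ ω v < l) then (1 / 2 : ℝ) else 1) :=
            Finset.sum_le_sum h4
        _ ≤ ∑ ω ∈ Fintype.piFinset P,
            2 ^ θ * ∏ v, (if (v ∈ Z ∧ ω v < l) then (1 / 2 : ℝ) else 1) := by
            apply Finset.sum_le_sum_of_subset_of_nonneg h3
            intro ω _ _
            apply mul_nonneg (by positivity)
            apply Finset.prod_nonneg
            intro v _
            split_ifs <;> norm_num
        _ = _ := by rw [Finset.mul_sum]
    rw [hPeq]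
    refine h2.trans ?_
    rw [mul_assoc]
    apply mul_le_mul_of_nonneg_left _ (by positivity)
    refine h1.trans ?_
    apply mul_le_mul_of_nonneg_right _ (by positivity)
    exact pow_le_pow_of_le_one (by norm_num) (by norm_num) hZm

/-- Some component has few connectors. -/
def Bad1 (G : SimpleGraph V) (W : Finset V) (l θ : ℕ) (ω : V → ℕ) : Prop :=
  ∃ Ξ, Few G W l θ ω Ξ

theorem type1 (G : SimpleGraph V) (W : Finset V) {g m θ r l : ℕ} (hgm : 2 * m ≤ g)
    (hθ : θ ≤ m) (hr : r ≤ l) (hl : l ≤ 4 * r)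
    (hKC : ∀ S : Set V, S.ncard < g → Cn G ((W : Set V) \ S))
    (hdeg : ∀ w ∈ W, g ≤ (W.filter (fun v => G.Adj w v)).card) :
    (((Om V (4 * r)).filter (fun ω => Bad1 G W l θ ω)).card : ℝ) ≤
      2 ^ θ * (7 / 8 : ℝ) ^ m * ((Fintype.card V : ℝ) * ((Om V (4 * r)).card : ℝ)) := by
  have hsub : (Om V (4 * r)).filter (fun ω => Bad1 G W l θ ω) ⊆
      (univ : Finset (Finset V)).biUnion
        (fun Ξ => (Om V (4 * r)).filter (fun ω => Few G W l θ ω Ξ)) := by
    intro ω hω
    rw [mem_filter] at hω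
    obtain ⟨hω, Ξ, hΞ⟩ := hω
    rw [mem_biUnion]
    exact ⟨Ξ, mem_univ _, by rw [mem_filter]; exact ⟨hω, hΞ⟩⟩
  have h1 := (Finset.card_le_card hsub).trans Finset.card_biUnion_le
  have h2 : (((Om V (4 * r)).filter (fun ω => Bad1 G W l θ ω)).card : ℝ) ≤
      ∑ Ξ : Finset V, (((Om V (4 * r)).filter (fun ω => Few G W l θ ω Ξ)).card : ℝ) := by
    exact_mod_cast h1
  refine h2.trans ?_
  refine (Finset.sum_le_sum
    (fun Ξ _ => type1_single G W hgm hθ hr hl hKC hdeg Ξ)).trans ?_
  rw [← Finset.mul_sum]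
  apply mul_le_mul_of_nonneg_left _ (by positivity)
  have h3 : ∑ Ξ : Finset V, ((Om V (4 * r)).filter (fun ω => IsC G W l ω Ξ)).card =
      ∑ ω ∈ Om V (4 * r), ncomp G W l ω := by
    simp only [Finset.card_filter, ncomp, comps]
    rw [Finset.sum_comm]
  have h4 : ∑ ω ∈ Om V (4 * r), ncomp G W l ω ≤ ∑ ω ∈ Om V (4 * r), Fintype.card V :=
    Finset.sum_le_sum (fun ω _ => ncomp_le G W l ω)
  rw [Finset.sum_const, smul_eq_mul] at h4
  rw [← h3] at h4
  have h5 : (∑ Ξ : Finset V, (((Om V (4 * r)).filter (fun ω => IsC G W l ω Ξ)).card : ℝ)) ≤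
      ((Om V (4 * r)).card : ℝ) * (Fintype.card V : ℝ) := by
    exact_mod_cast h4
  rw [mul_comm (Fintype.card V : ℝ)]
  exact h5

end Run7.h414
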