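import Pool.Agent.Run7.h414.Sets

set_option autoImplicit false

namespace Run7.h414

open SimpleGraph

variable {V : Type*}

/-- Periodic closed odd walks inside `X`. -/
structure OddW (G : SimpleGraph V) (X : Set V) (c : ℕ → V) (N : ℕ) : Prop where
  odd : Odd N
  per : ∀ i, c (i + N) = c i
  adj : ∀ i, G.Adj (c i) (c (i + 1))
  mem : ∀ i, c i ∈ X

theorem oddW_of_seq {G : SimpleGraph V} {X : Set V} {d : ℕ → V} {M : ℕ} (hodd : Odd M)
    (hmem : ∀ i < M, d i ∈ X) (hadj : ∀ i, i + 1 < M → G.Adj (d i) (d (i + 1)))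
    (hlast : G.Adj (d (M - 1)) (d 0)) : OddW G X (fun i => d (i % M)) M := by
  have hM : 0 < M := hodd.pos
  refine ⟨hodd, fun i => by simp, fun i => ?_, fun i => hmem _ (Nat.mod_lt _ hM)⟩
  have hi : i + 1 = M * (i / M) + (i % M + 1) := by
    have := Nat.div_add_mod i M
    omega
  have hlt : i % M < M := Nat.mod_lt _ hM
  by_cases h : i % M + 1 < M
  · have h2 : (i + 1) % M = i % M + 1 := by
      rw [hi, Nat.mul_add_mod, Nat.mod_eq_of_lt h]
    show G.Adj (d (i % M)) (d ((i + 1) % M))
    rw [h2]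
    exact hadj _ h
  · have h3 : i % M + 1 = M := by omega
    have h2 : (i + 1) % M = 0 := by
      rw [hi, Nat.mul_add_mod, h3, Nat.mod_self]
    show G.Adj (d (i % M)) (d ((i + 1) % M))
    rw [h2]
    have h4 : i % M = M - 1 := by omega
    rw [h4]
    exact hlast

theorem OddW.not_bip {G : SimpleGraph V} {X : Set V} {c : ℕ → V} {N : ℕ} (h : OddW G X c N) :
    ¬ Bip G (Set.range c) := by
  rintro ⟨f, hf⟩
  have h1 : ∀ i, f (c (i + 1)) = !f (c i) := by
    intro i
    have := hf (c i) ⟨i, rfl⟩ (c (i + 1)) ⟨i + 1, rfl⟩ (h.adj i)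
    revert this
    cases f (c i) <;> cases f (c (i + 1)) <;> simp
  have h2 : ∀ i, f (c (2 * i)) = f (c 0) := by
    intro i
    induction i with
    | zero => rfl
    | succ n ih =>
      have : 2 * (n + 1) = 2 * n + 1 + 1 := by ring
      rw [this, h1, h1, ih]
      simp
  obtain ⟨m, hm⟩ := h.odd
  have h3 : c N = c 0 := by
    have := h.per 0
    simpa using this
  have h4 : f (c N) = !f (c 0) := by
    rw [hm, h1, h2]
  rw [h3] at h4
  revert h4
  cases f (c 0) <;> simp

theorem exists_oddW {G : SimpleGraph V} {X : Set V} (h : ¬ Bip G X) :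
    ∃ (c : ℕ → V) (N : ℕ), OddW G X c N := by
  classical
  by_contra hcon
  apply h
  have hcol : (G.induce X).Colorable 2 := by
    rw [two_colorable_iff_forall_loop_even]
    intro u w
    by_contra hodd
    rw [Nat.not_even_iff_odd] at hodd
    apply hcon
    refine ⟨_, _, oddW_of_seq (G := G) (X := X) (d := fun i => (w.getVert i).1)
      (M := w.length) hodd (fun i _ => (w.getVert i).2) (fun i hi => ?_) ?_⟩
    · have := w.adj_getVert_succ (i := i) (by omega)
      simpa using this
    · have hpos : 0 < w.length := hodd.pos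
      have := w.adj_getVert_succ (i := w.length - 1) (by omega)
      have h2 : w.length - 1 + 1 = w.length := by omega
      rw [h2, w.getVert_length] at this
      simp only [w.getVert_zero]
      simpa using this
  obtain ⟨C⟩ := hcol
  refine ⟨fun v => if h : v ∈ X then decide (C ⟨v, h⟩ = 0) else true, ?_⟩
  intro u hu v hv huv
  have hne : C ⟨u, hu⟩ ≠ C ⟨v, hv⟩ := C.valid (by simpa using huv)
  simp only [hu, hv, dif_pos]
  intro heq
  apply hne
  have e1 : (C ⟨u, hu⟩ = 0) ↔ (C ⟨v, hv⟩ = 0) := by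
    simpa using heq
  by_cases h0 : C ⟨u, hu⟩ = 0
  · rw [h0, e1.mp h0]
  · have h1 : C ⟨v, hv⟩ ≠ 0 := fun h => h0 (e1.mpr h)
    have key : ∀ a b : Fin 2, a ≠ 0 → b ≠ 0 → a = b := by decide
    exact key _ _ h0 h1

/-- Inclusion-minimal non-two-colourable sets, i.e. vertex sets of induced odd cycles. -/
def Cyc (G : SimpleGraph V) (X : Set V) : Prop :=
  ¬ Bip G X ∧ ∀ Y ⊆ X, ¬ Bip G Y → Y = X

theorem Cyc.bip_of_ssubset {G : SimpleGraph V} {X Y : Set V} (h : Cyc G X) (hY : Y ⊆ X)
    (hne : Y ≠ X) : Bip G Y := by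
  by_contra hc
  exact hne (h.2 Y hY hc)

theorem exists_cyc [Finite V] {G : SimpleGraph V} {X : Set V} (h : ¬ Bip G X) :
    ∃ Y ⊆ X, Cyc G Y := by
  obtain ⟨Y, ⟨hY, hYb⟩, hmin⟩ := (Set.toFinite {Y | Y ⊆ X ∧ ¬ Bip G Y}).exists_minimal
    ⟨X, subset_rfl, h⟩
  refine ⟨Y, hY, hYb, ?_⟩
  intro Z hZ hZb
  exact Set.Subset.antisymm hZ (hmin ⟨hZ.trans hY, hZb⟩ hZ)

/-- Cyclic parametrisation of an induced odd cycle. -/
structure Param (G : SimpleGraph V) (X : Set V) (c : ℕ → V) (N : ℕ) : Prop where
  odd : Odd N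
  three : 3 ≤ N
  per : ∀ i, c (i + N) = c i
  inj : ∀ i j, i < j → j < i + N → c i ≠ c j
  step : ∀ i, G.Adj (c i) (c (i + 1))
  adj : ∀ i j, i < j → j < i + N → G.Adj (c i) (c j) → j = i + 1 ∨ j = i + N - 1
  range : Set.range c = X

theorem Cyc.param {G : SimpleGraph V} {X : Set V} (h : Cyc G X) :
    ∃ (c : ℕ → V) (N : ℕ), Param G X c N := by
  classical
  have hex : ∃ N, ∃ c : ℕ → V, OddW G X c N := by
    obtain ⟨c, N, hcN⟩ := exists_oddW h.1
    exact ⟨N, c, hcN⟩
  obtain ⟨c, hc⟩ := Nat.find_spec hex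
  have hmin : ∀ M, M < Nat.find hex → ¬ ∃ c : ℕ → V, OddW G X c M :=
    fun M hM => Nat.find_min hex hM
  generalize Nat.find hex = N at hc hmin
  have hN : 0 < N := hc.odd.pos
  -- the key shortening statement
  have key : ∀ i j, i ≤ j → G.Adj (c j) (c i) → Odd (j - i + 1) → N ≤ j - i + 1 := by
    intro i j hij hadj hodd
    by_contra hlt
    push Not at hlt
    apply hmin _ hlt
    refine ⟨_, oddW_of_seq (d := fun t => c (i + t)) hodd (fun t _ => hc.mem _) (fun t _ => ?_) ?_⟩
    · have := hc.adj (i + t)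
      simpa [add_assoc] using this
    · have e : i + (j - i + 1 - 1) = j := by omega
      simp only [e, add_zero]
      exact hadj
  have hinj : ∀ i j, i < j → j < i + N → c i ≠ c j := by
    intro i j hij hjN heq
    obtain ⟨m, hm⟩ := hc.odd
    rcases Nat.even_or_odd (j - i) with he | ho
    · -- use the other arc
      have h1 : G.Adj (c (i + N - 1)) (c j) := by
        have h2 := hc.adj (i + N - 1)
        have h3 : i + N - 1 + 1 = i + N := by omega
        rw [h3, hc.per, heq] at h2
        exact h2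
      have h4 : Odd (i + N - 1 - j + 1) := by
        obtain ⟨a, ha⟩ := he
        refine ⟨m - a, by omega⟩
      have := key j (i + N - 1) (by omega) h1 h4
      omega
    · have h1 : G.Adj (c (j - 1)) (c i) := by
        have h2 := hc.adj (j - 1)
        have h3 : j - 1 + 1 = j := by omega
        rw [h3, ← heq] at h2
        exact h2
      have h4 : Odd (j - 1 - i + 1) := by
        have : j - 1 - i + 1 = j - i := by omega
        rw [this]
        exact ho
      have := key i (j - 1) (by omega) h1 h4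
      omega
  refine ⟨c, N, hc.odd, ?_, hc.per, hinj, hc.adj, ?_, ?_⟩
  · obtain ⟨m, hm⟩ := hc.odd
    by_contra h3
    have hN1 : N = 1 := by omega
    have h1 := hc.adj 0
    have h2 := hc.per 0
    rw [hN1] at h2
    rw [h2] at h1
    exact G.irrefl h1
  · intro i j hij hjN hadj
    obtain ⟨m, hm⟩ := hc.odd
    rcases Nat.even_or_odd (j - i) with he | ho
    · right
      have := key i j hij.le hadj.symm he.add_one
      omega
    · left
      have h1 : G.Adj (c (i + N)) (c j) := by
        rw [hc.per]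
        exact hadj
      have h4 : Odd (i + N - j + 1) := by
        obtain ⟨a, ha⟩ := ho
        refine ⟨m - a, by omega⟩
      have := key j (i + N) hjN.le h1 h4
      omega
  · apply h.2 _ _ hc.not_bip
    rintro x ⟨i, rfl⟩
    exact hc.mem i

theorem Param.shift {G : SimpleGraph V} {X : Set V} {c : ℕ → V} {N : ℕ} (h : Param G X c N)
    (s : ℕ) : Param G X (fun i => c (s + i)) N := by
  refine ⟨h.odd, h.three, fun i => ?_, fun i j hij hj => ?_, fun i => ?_,
    fun i j hij hj hadj => ?_, ?_⟩
  · show c (s + (i + N)) = c (s + i)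
    rw [← add_assoc, h.per]
  · exact h.inj (s + i) (s + j) (by omega) (by omega)
  · exact h.step (s + i)
  · have := h.adj (s + i) (s + j) (by omega) (by omega) hadj
    omega
  · rw [← h.range]
    apply Set.Subset.antisymm
    · rintro x ⟨i, rfl⟩
      exact ⟨_, rfl⟩
    · rintro x ⟨i, rfl⟩
      -- c i = c (s + (i + s * N - s))
      refine ⟨i + s * N - s, ?_⟩
      have h1 : s ≤ s * N := by
        have := h.three
        nlinarith
      have h2 : s + (i + s * N - s) = i + s * N := by omega
      show c (s + (i + s * N - s)) = c i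
      rw [h2]
      generalize s = k
      induction k with
      | zero => simp
      | succ n ih =>
        have h4 : i + (n + 1) * N = i + n * N + N := by ring
        rw [h4, h.per, ih]

theorem Param.per_mul {G : SimpleGraph V} {X : Set V} {c : ℕ → V} {N : ℕ} (h : Param G X c N)
    (i k : ℕ) : c (i + k * N) = c i := by
  induction k with
  | zero => simp
  | succ n ih =>
    have h4 : i + (n + 1) * N = i + n * N + N := by ring
    rw [h4, h.per, ih]

theorem Param.exists_lt {G : SimpleGraph V} {X : Set V} {c : ℕ → V} {N : ℕ} (h : Param G X c N)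
    {x : V} (hx : x ∈ X) : ∃ i < N, c i = x := by
  rw [← h.range] at hx
  obtain ⟨i, rfl⟩ := hx
  have hN : 0 < N := by have := h.three; omega
  refine ⟨i % N, Nat.mod_lt _ hN, ?_⟩
  conv_rhs => rw [← Nat.mod_add_div i N]
  rw [mul_comm, h.per_mul]

theorem Param.mem {G : SimpleGraph V} {X : Set V} {c : ℕ → V} {N : ℕ} (h : Param G X c N)
    (i : ℕ) : c i ∈ X := by
  rw [← h.range]
  exact ⟨i, rfl⟩

end Run7.h414
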