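import Pool.Agent.Run7.h414.Arc

set_option autoImplicit false

namespace Run7.h414

open SimpleGraph

variable {V : Type*}

/-- Two-connected vertex sets. -/
def TwoC (G : SimpleGraph V) (R : Set V) : Prop :=
  3 ≤ R.ncard ∧ Cn G R ∧ ∀ v ∈ R, Cn G (R \ {v})

/-- Adding an ear. -/
theorem ear [Finite V] {G : SimpleGraph V} {R A : Set V} (hR : TwoC G R) (hA : Cn G A)
    (hd : Disjoint A R) {r s : V} (hr : r ∈ R) (hs : s ∈ R) (hrs : r ≠ s) (ar : Att G A r)
    (as : Att G A s) : ∃ A₀ ⊆ A, A₀.Nonempty ∧ TwoC G (R ∪ A₀) := by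
  obtain ⟨B, ⟨hBA, hB, ⟨b₁, hb₁, hb₁r⟩, ⟨b₂, hb₂, hb₂s⟩⟩, hmin⟩ :=
    (Set.toFinite {B | B ⊆ A ∧ Cn G B ∧ Att G B r ∧ Att G B s}).exists_minimal
      ⟨A, subset_rfl, hA, ar, as⟩
  have hdB : Disjoint B R := hd.mono_left hBA
  refine ⟨B, hBA, hB.1, ?_, ?_, ?_⟩
  · exact hR.1.trans (Set.ncard_le_ncard Set.subset_union_left (Set.toFinite _))
  · exact hR.2.1.union hB (Or.inr ⟨r, hr, b₁, hb₁, hb₁r.symm⟩)
  · rintro v (hv | hv)
    · -- `v ∈ R`
      have hvB : v ∉ B := fun h => Set.disjoint_left.mp hdB h hv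
      have e : (R ∪ B) \ {v} = R \ {v} ∪ B := by
        ext x
        simp only [Set.mem_sdiff, Set.mem_union, Set.mem_singleton_iff]
        constructor
        · rintro ⟨h1 | h1, h2⟩
          · exact Or.inl ⟨h1, h2⟩
          · exact Or.inr h1
        · rintro (⟨h1, h2⟩ | h1)
          · exact ⟨Or.inl h1, h2⟩
          · exact ⟨Or.inr h1, fun h => hvB (h ▸ h1)⟩
      rw [e]
      apply (hR.2.2 v hv).union hB
      right
      by_cases hvr : v = r
      · refine ⟨s, ⟨hs, fun h => hrs ?_⟩, b₂, hb₂, hb₂s.symm⟩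
        rw [Set.mem_singleton_iff] at h
        rw [h, hvr]
      · exact ⟨r, ⟨hr, fun h => hvr h.symm⟩, b₁, hb₁, hb₁r.symm⟩
    · -- `v ∈ B`
      have hvR : v ∉ R := fun h => Set.disjoint_left.mp hdB hv h
      have hRsub : R ⊆ (R ∪ B) \ {v} := fun x hx => ⟨Or.inl hx, fun h => hvR (h ▸ hx)⟩
      refine ⟨hR.2.1.1.mono hRsub, ?_⟩
      -- suppose there is a separation; one side contains `R`
      have key : ∀ U W : Set V, U ∪ W = (R ∪ B) \ {v} → R ⊆ U → W.Nonempty →
          (∀ u ∈ U, ∀ w ∈ W, ¬ G.Adj u w) → Disjoint U W → False := by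
        intro U W hUW hRU hW hno hdis
        have hWB : W ⊆ B := by
          intro w hw
          have h1 : w ∈ (R ∪ B) \ {v} := by rw [← hUW]; exact Or.inr hw
          rcases h1.1 with h2 | h2
          · exact absurd hw (Set.disjoint_left.mp hdis (hRU h2))
          · exact h2
        have hvW : v ∉ W := by
          intro h
          have h1 : v ∈ (R ∪ B) \ {v} := by rw [← hUW]; exact Or.inr h
          exact h1.2 rfl
        -- `B \ W` is still good
        have hcn : Cn G (B \ W) := by
          refine ⟨⟨v, hv, hvW⟩, ?_⟩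
          have key2 : ∀ P Q : Set V, P ∪ Q = B \ W → v ∈ P → Q.Nonempty →
              (∀ u ∈ P, ∀ w ∈ Q, ¬ G.Adj u w) → Disjoint P Q → False := by
            intro P Q hPQ hvP hQ hno2 hdis2
            have hQU : Q ⊆ U := by
              intro q hq
              have h1 : q ∈ B \ W := by rw [← hPQ]; exact Or.inr hq
              have h2 : q ∈ (R ∪ B) \ {v} := by
                refine ⟨Or.inr h1.1, ?_⟩
                intro h3
                rw [Set.mem_singleton_iff] at h3
                exact Set.disjoint_left.mp hdis2 hvP (h3 ▸ hq)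
              rw [← hUW] at h2
              exact h2.resolve_right h1.2
            have hQB : Q ⊆ B := fun q hq => (show q ∈ B \ W by rw [← hPQ]; exact Or.inr hq).1
            obtain ⟨q, hq⟩ := hQ
            obtain ⟨u, hu, w, hw, huw⟩ := hB.2 Q hQB ⟨q, hq⟩
              ⟨v, hv, fun h => Set.disjoint_left.mp hdis2 hvP h⟩
            by_cases hwW : w ∈ W
            · exact hno u (hQU hu) w hwW huw
            · have h1 : w ∈ P ∪ Q := by rw [hPQ]; exact ⟨hw.1, hwW⟩
              exact hno2 w (h1.resolve_right hw.2) u hu huw.symm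
          intro P hP hPne hPne2
          by_contra hno3
          push Not at hno3
          by_cases hvP : v ∈ P
          · exact key2 P ((B \ W) \ P) (Set.union_sdiff_cancel hP) hvP hPne2 hno3
              Set.disjoint_sdiff_right
          · exact key2 ((B \ W) \ P) P (Set.sdiff_union_of_subset hP) ⟨⟨hv, hvW⟩, hvP⟩ hPne
              (fun u hu w hw huw => hno3 w hw u hu huw.symm) Set.disjoint_sdiff_left
        have hmem : B \ W ∈ {B | B ⊆ A ∧ Cn G B ∧ Att G B r ∧ Att G B s} := by
          refine ⟨Set.sdiff_subset.trans hBA, hcn, ⟨b₁, ⟨hb₁, fun h => ?_⟩, hb₁r⟩,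
            ⟨b₂, ⟨hb₂, fun h => ?_⟩, hb₂s⟩⟩
          · exact hno r (hRU hr) b₁ h hb₁r.symm
          · exact hno s (hRU hs) b₂ h hb₂s.symm
        have h5 := hmin hmem Set.sdiff_subset
        obtain ⟨w, hw⟩ := hW
        exact (h5 (hWB hw)).2 hw
      intro U hU hUne hUne2
      by_contra hno
      push Not at hno
      -- `R` lies on one side
      have hside : R ⊆ U ∨ Disjoint R U := by
        by_contra hc
        push Not at hc
        obtain ⟨hc1, hc2⟩ := hc
        rw [Set.not_subset] at hc1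
        rw [Set.not_disjoint_iff] at hc2
        obtain ⟨a, haR, haU⟩ := hc1
        obtain ⟨b, hbR, hbU⟩ := hc2
        obtain ⟨u, hu, w, hw, huw⟩ := hR.2.1.2 (R ∩ U) Set.inter_subset_left ⟨b, hbR, hbU⟩
          ⟨a, haR, fun h => haU h.2⟩
        exact hno u hu.2 w ⟨hRsub hw.1, fun h => hw.2 ⟨hw.1, h⟩⟩ huw
      rcases hside with hside | hside
      · exact key U (((R ∪ B) \ {v}) \ U) (Set.union_sdiff_cancel hU) hside hUne2 hno
          Set.disjoint_sdiff_right
      · exact key (((R ∪ B) \ {v}) \ U) U (Set.sdiff_union_of_subset hU)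
          (fun x hx => ⟨hRsub hx, Set.disjoint_left.mp hside hx⟩) hUne
          (fun u hu w hw huw => hno w hw u hu huw.symm) Set.disjoint_sdiff_left

/-- The number of ordered adjacent pairs inside a finite set. -/
noncomputable def epairs [DecidableEq V] (G : SimpleGraph V) [DecidableRel G.Adj] (R : Finset V) :
    ℕ := ((R ×ˢ R).filter (fun p => G.Adj p.1 p.2)).card

theorem epairs_le [DecidableEq V] (G : SimpleGraph V) [DecidableRel G.Adj] {R P Q : Finset V}
    (h : ∀ u ∈ R, ∀ w ∈ R, G.Adj u w → (u ∈ P ∧ w ∈ P) ∨ (u ∈ Q ∧ w ∈ Q)) :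
    epairs G R ≤ epairs G P + epairs G Q := by
  unfold epairs
  refine (Finset.card_le_card ?_).trans (Finset.card_union_le _ _)
  rintro ⟨u, w⟩ hp
  simp only [Finset.mem_filter, Finset.mem_product, Finset.mem_union] at hp ⊢
  rcases h u hp.1.1 w hp.1.2 hp.2 with h1 | h1
  · exact Or.inl ⟨h1, hp.2⟩
  · exact Or.inr ⟨h1, hp.2⟩

/-- A nonempty set with all internal degrees at least two contains a two-connected set. -/
theorem exists_twoC [Fintype V] {G : SimpleGraph V} {W : Set V} (hne : W.Nonempty)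
    (hdeg : ∀ v ∈ W, ∃ a ∈ W, ∃ b ∈ W, a ≠ b ∧ G.Adj v a ∧ G.Adj v b) :
    ∃ R ⊆ W, TwoC G R := by
  classical
  have hW : (2 * W.toFinset.card ≤ epairs G W.toFinset + 1) := by
    have h1 : epairs G W.toFinset = ∑ v ∈ W.toFinset,
        (W.toFinset.filter (fun w => G.Adj v w)).card := by
      unfold epairs
      rw [Finset.card_filter, Finset.sum_product]
      apply Finset.sum_congr rfl
      intro v _
      rw [Finset.card_filter]
    have h2 : ∑ v ∈ W.toFinset, 2 ≤ ∑ v ∈ W.toFinset,
        (W.toFinset.filter (fun w => G.Adj v w)).card := by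
      apply Finset.sum_le_sum
      intro v hv
      rw [Set.mem_toFinset] at hv
      obtain ⟨a, ha, b, hb, hab, h3, h4⟩ := hdeg v hv
      have h5 : ({a, b} : Finset V).card = 2 := Finset.card_pair hab
      rw [← h5]
      apply Finset.card_le_card
      intro x hx
      simp only [Finset.mem_insert, Finset.mem_singleton] at hx
      simp only [Finset.mem_filter, Set.mem_toFinset]
      rcases hx with rfl | rfl
      · exact ⟨ha, h3⟩
      · exact ⟨hb, h4⟩
    rw [Finset.sum_const, smul_eq_mul] at h2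
    omega
  obtain ⟨R, ⟨hRW, hRne, hRe⟩, hmin⟩ :=
    (Set.toFinite {R : Finset V | R ⊆ W.toFinset ∧ R.Nonempty ∧
      2 * R.card ≤ epairs G R + 1}).exists_minimal
      ⟨W.toFinset, subset_rfl, by simpa using hne, hW⟩
  -- proper subsets are sparse
  have hsp : ∀ P : Finset V, P ⊆ R → P.Nonempty → P ≠ R → epairs G P + 2 ≤ 2 * P.card := by
    intro P hP hPne hPR
    by_contra hcon
    have h1 : P ∈ {R : Finset V | R ⊆ W.toFinset ∧ R.Nonempty ∧
      2 * R.card ≤ epairs G R + 1} := ⟨hP.trans hRW, hPne, by omega⟩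
    exact hPR (Finset.Subset.antisymm hP (hmin h1 hP))
  have hcard : 3 ≤ R.card := by
    have h1 : epairs G R ≤ R.offDiag.card := by
      apply Finset.card_le_card
      rintro ⟨u, w⟩ hp
      simp only [Finset.mem_filter, Finset.mem_product, Finset.mem_offDiag] at hp ⊢
      exact ⟨hp.1.1, hp.1.2, hp.2.ne⟩
    rw [Finset.offDiag_card] at h1
    have h2 : 0 < R.card := Finset.card_pos.mpr hRne
    by_contra h3
    have h4 : R.card = 1 ∨ R.card = 2 := by omega
    rcases h4 with h4 | h4 <;> rw [h4] at h1 hRe <;> omega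
  refine ⟨R, ?_, ?_, ?_, ?_⟩
  · intro x hx
    have := hRW hx
    simpa using this
  · rw [Set.ncard_coe_finset]
    exact hcard
  · refine ⟨hRne, ?_⟩
    intro U hU hUne hUne2
    by_contra hno
    push Not at hno
    set P : Finset V := R.filter (· ∈ U) with hP
    set Q : Finset V := R.filter (· ∉ U) with hQ
    have hPne : P.Nonempty := by
      obtain ⟨u, hu⟩ := hUne
      exact ⟨u, by simp [hP, hu, show u ∈ R from hU hu]⟩
    have hQne : Q.Nonempty := by
      obtain ⟨u, hu, hu'⟩ := hUne2
      exact ⟨u, by simp [hQ, hu', show u ∈ R from hu]⟩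
    have hPQ : P.card + Q.card = R.card := Finset.card_filter_add_card_filter_not _
    have h1 := hsp P (Finset.filter_subset _ _) hPne (by
      intro h
      obtain ⟨u, hu⟩ := hQne
      have h2 : u ∈ P := by rw [h]; exact (Finset.mem_filter.mp hu).1
      exact (Finset.mem_filter.mp hu).2 (Finset.mem_filter.mp h2).2)
    have h2 := hsp Q (Finset.filter_subset _ _) hQne (by
      intro h
      obtain ⟨u, hu⟩ := hPne
      have h2 : u ∈ Q := by rw [h]; exact (Finset.mem_filter.mp hu).1
      exact (Finset.mem_filter.mp h2).2 (Finset.mem_filter.mp hu).2)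
    have h3 := epairs_le G (R := R) (P := P) (Q := Q) (by
      intro u hu w hw huw
      by_cases h4 : u ∈ U <;> by_cases h5 : w ∈ U
      · left; simp [hP, h4, h5, hu, hw]
      · exact absurd huw (hno u h4 w ⟨hw, h5⟩)
      · exact absurd huw.symm (hno w h5 u ⟨hu, h4⟩)
      · right; simp [hQ, h4, h5, hu, hw])
    omega
  · intro v hv
    have hvR : v ∈ R := hv
    refine ⟨?_, ?_⟩
    · have h1 : (R.erase v).Nonempty := by
        rw [← Finset.card_pos, Finset.card_erase_of_mem hvR]
        omega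
      obtain ⟨u, hu⟩ := h1
      rw [Finset.mem_erase] at hu
      exact ⟨u, hu.2, hu.1⟩
    intro U hU hUne hUne2
    by_contra hno
    push Not at hno
    set P : Finset V := R.filter (fun x => x ∈ U ∨ x = v) with hP
    set Q : Finset V := R.filter (fun x => x ∉ U) with hQ
    have hvU : v ∉ U := fun h => (hU h).2 rfl
    have hUR : ∀ u ∈ U, u ∈ R := fun u hu => (hU hu).1
    have hPQ : P.card + Q.card = R.card + 1 := by
      have h1 : P.card + (R.filter (fun x => ¬ (x ∈ U ∨ x = v))).card = R.card :=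
        Finset.card_filter_add_card_filter_not _
      have h2 : Q = insert v (R.filter (fun x => ¬ (x ∈ U ∨ x = v))) := by
        ext x
        simp only [hQ, Finset.mem_filter, Finset.mem_insert]
        constructor
        · rintro ⟨h3, h4⟩
          by_cases h5 : x = v
          · exact Or.inl h5
          · exact Or.inr ⟨h3, by tauto⟩
        · rintro (h3 | ⟨h3, h4⟩)
          · rw [h3]
            exact ⟨hvR, hvU⟩
          · exact ⟨h3, by tauto⟩
      have h3 : Q.card = (R.filter (fun x => ¬ (x ∈ U ∨ x = v))).card + 1 := by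
        rw [h2, Finset.card_insert_of_notMem (by simp)]
      omega
    obtain ⟨u₀, hu₀⟩ := hUne
    obtain ⟨w₀, hw₀, hw₀'⟩ := hUne2
    have h1 := hsp P (Finset.filter_subset _ _) ⟨v, by simp [hP, hvR]⟩ (by
      intro h
      have h2 : w₀ ∈ P := by rw [h]; exact hw₀.1
      rcases (Finset.mem_filter.mp h2).2 with h3 | h3
      · exact hw₀' h3
      · exact hw₀.2 h3)
    have h2 := hsp Q (Finset.filter_subset _ _) ⟨v, by simp [hQ, hvR, hvU]⟩ (by
      intro h
      have h2 : u₀ ∈ Q := by rw [h]; exact hUR u₀ hu₀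
      exact (Finset.mem_filter.mp h2).2 hu₀)
    have h3 := epairs_le G (R := R) (P := P) (Q := Q) (by
      intro u hu w hw huw
      simp only [hP, hQ, Finset.mem_filter]
      by_cases h4 : u ∈ U
      · by_cases h5 : w ∈ U
        · left; simp [h4, h5, hu, hw]
        · by_cases h6 : w = v
          · left; simp [h4, h6, hu, hvR]
          · exact absurd huw (hno u h4 w ⟨⟨hw, h6⟩, h5⟩)
      · by_cases h5 : w ∈ U
        · by_cases h6 : u = v
          · left; simp [h5, h6, hw, hvR]
          · exact absurd huw.symm (hno w h5 u ⟨⟨hu, h6⟩, h4⟩)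
        · right; simp [h4, h5, hu, hw])
    omega

end Run7.h414
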