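import Pool.Agent.Run7.h414.Ear

set_option autoImplicit false

namespace Run7.h414

open SimpleGraph

variable {V : Type*}

/-- Vertex connectivity in set form. -/
def KC (G : SimpleGraph V) (f : ℕ) : Prop := ∀ S : Set V, S.ncard < f → Cn G Sᶜ

theorem KC.sep {G : SimpleGraph V} {f : ℕ} (h : KC G f) {U S : Set V} (hU : U.Nonempty)
    (hdis : Disjoint U S) (hS : S.ncard < f)
    (hN : ∀ u ∈ U, ∀ w, w ∉ U → w ∉ S → ¬ G.Adj u w) : ∀ w, w ∈ U ∨ w ∈ S := by
  intro w
  by_contra hw
  push Not at hw
  obtain ⟨u, hu, w', hw', huw⟩ := (h S hS).2 U (fun u hu => Set.disjoint_left.mp hdis hu) hU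
    ⟨w, hw.2, hw.1⟩
  exact hN u hu w' hw'.2 hw'.1 huw

theorem KC.deg [Finite V] {G : SimpleGraph V} {f : ℕ} (h : KC G f) (hc : f < Nat.card V) (v : V)
    {T : Set V} (hT : T.ncard < f) : ∃ w, w ∉ T ∧ G.Adj v w := by
  by_contra hcon
  push Not at hcon
  have h1 := h.sep (U := {v}) (S := T \ {v}) ⟨v, rfl⟩ (by simp)
    ((Set.ncard_le_ncard Set.sdiff_subset (Set.toFinite _)).trans_lt hT) (by
      intro u hu w hw1 hw2
      rw [Set.mem_singleton_iff] at hu
      rw [hu]
      exact hcon w (fun hwT => hw2 ⟨hwT, hw1⟩))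
  have h2 : (Set.univ : Set V) ⊆ insert v T := by
    intro w _
    rcases h1 w with h3 | h3
    · exact Or.inl h3
    · exact Or.inr h3.1
  have h3 := Set.ncard_le_ncard h2 (Set.toFinite _)
  rw [Set.ncard_univ] at h3
  have h4 := Set.ncard_insert_le v T
  omega

theorem triangle_not_bip {G : SimpleGraph V} {u v w : V} (h1 : G.Adj u v) (h2 : G.Adj v w)
    (h3 : G.Adj u w) : ¬ Bip G {u, v, w} := by
  rintro ⟨c, hc⟩
  have a1 := hc u (by simp) v (by simp) h1
  have a2 := hc v (by simp) w (by simp) h2
  have a3 := hc u (by simp) w (by simp) h3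
  revert a1 a2 a3
  cases c u <;> cases c v <;> cases c w <;> simp

theorem init [Fintype V] {G : SimpleGraph V} (h : KC G 5) (hcard : 5 < Nat.card V)
    (hnb : ¬ Bip G Set.univ) : ∃ X R : Set V, Cyc G X ∧ Disjoint X R ∧ TwoC G R := by
  classical
  obtain ⟨X, hX, hmin⟩ := Set.exists_min_image {X : Set V | ¬ Bip G X} (fun X => X.ncard)
    (Set.toFinite _) ⟨Set.univ, hnb⟩
  have hcyc : Cyc G X := by
    refine ⟨hX, ?_⟩
    intro Y hY hYb
    exact Set.eq_of_subset_of_ncard_le hY (hmin Y hYb) (Set.toFinite _)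
  rcases Nat.lt_or_ge 3 X.ncard with h3 | h3
  · -- long shortest odd cycle
    obtain ⟨c, N, hp⟩ := hcyc.param
    have hWne : (Xᶜ).Nonempty := by
      by_contra hcon
      rw [Set.not_nonempty_iff_eq_empty, Set.compl_empty_iff] at hcon
      obtain ⟨w, hw, hadj⟩ := h.deg hcard (c 0) (T := {c 1, c (N - 1)})
        ((Set.ncard_insert_le _ _).trans_lt (by simp))
      obtain ⟨j, hj, rfl⟩ := hp.exists_lt (x := w) (by rw [hcon]; trivial)
      have hj0 : 0 < j := by
        rcases Nat.eq_zero_or_pos j with h0 | h0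
        · subst h0
          exact absurd hadj G.irrefl
        · exact h0
      rcases hp.adj 0 j hj0 (by omega) hadj with h4 | h4
      · apply hw
        rw [h4]
        simp
      · apply hw
        have : j = N - 1 := by omega
        rw [this]
        simp
    have hdeg : ∀ v ∈ Xᶜ, ∃ a ∈ Xᶜ, ∃ b ∈ Xᶜ, a ≠ b ∧ G.Adj v a ∧ G.Adj v b := by
      intro v hv
      have hT : ({x | x ∈ X ∧ G.Adj v x} : Set V).ncard ≤ 2 := by
        by_contra hgt
        push Not at hgt
        have hgt' := hgt
        rw [Set.two_lt_ncard (Set.toFinite _)] at hgt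
        obtain ⟨x, hx, y, hy, z, hz, hxy, hxz, hyz⟩ := hgt
        obtain ⟨α, hα, e₁, he₁, e₂, he₂, hb, hcn, hend⟩ := arc_lemma (A := {v}) hcyc
          (cn_singleton G v) hx.1 hy.1 hz.1 hxy hyz hxz ⟨v, rfl, hx.2⟩ ⟨v, rfl, hy.2⟩
          ⟨v, rfl, hz.2⟩
        have h4 := hmin _ hb
        have h5 : ({v} ∪ α).ncard ≤ α.ncard + 1 := by
          have := Set.ncard_union_le {v} α
          rw [Set.ncard_singleton] at this
          omega
        have h6 : (X \ α).ncard + α.ncard = X.ncard := Set.ncard_sdiff_add_ncard_of_subset hα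
        obtain ⟨b, hbm⟩ := hcn.1
        have h7 : X \ α = {b} := by
          have h8 : (X \ α).ncard ≤ 1 := by
            omega
          rw [Set.ncard_le_one] at h8
          ext w
          exact ⟨fun hw => h8 w hw b hbm, fun hw => by rw [hw]; exact hbm⟩
        have h9 : ({x | x ∈ X ∧ G.Adj v x} : Set V) ⊆ {b, e₁, e₂} := by
          rintro w ⟨hwX, hvw⟩
          by_cases hwα : w ∈ α
          · by_contra hne
            simp only [Set.mem_insert_iff, Set.mem_singleton_iff, not_or] at hne
            exact hend w hwα hne.2.1 hne.2.2 v (Or.inl rfl) hvw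
          · have : w ∈ X \ α := ⟨hwX, hwα⟩
            rw [h7] at this
            exact Or.inl this
        have h10 : ({x | x ∈ X ∧ G.Adj v x} : Set V) = {b, e₁, e₂} := by
          apply Set.eq_of_subset_of_ncard_le h9 _ (Set.toFinite _)
          have h11 : ({b, e₁, e₂} : Set V).ncard ≤ 3 := by
            refine (Set.ncard_insert_le _ _).trans ?_
            have := Set.ncard_insert_le e₁ {e₂}
            rw [Set.ncard_singleton] at this
            omega
          omega
        have hvb : G.Adj v b := (show b ∈ {x | x ∈ X ∧ G.Adj v x} by rw [h10]; simp).2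
        have hve1 : G.Adj v e₁ := (show e₁ ∈ {x | x ∈ X ∧ G.Adj v x} by rw [h10]; simp).2
        have hve2 : G.Adj v e₂ := (show e₂ ∈ {x | x ∈ X ∧ G.Adj v x} by rw [h10]; simp).2
        -- `b` has a neighbour in `X`
        have hbw : ∃ w ∈ X, G.Adj b w := by
          by_contra hcon
          push Not at hcon
          obtain ⟨f, hf⟩ := hcyc.bip_of_ssubset hα (by
            intro he
            rw [he] at hbm
            exact hbm.2 hbm.1)
          apply hX
          refine ⟨f, ?_⟩
          intro u hu w hw huw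
          have hmem : ∀ u ∈ X, u ≠ b → u ∈ α := by
            intro u hu hub
            by_contra hua
            have : u ∈ X \ α := ⟨hu, hua⟩
            rw [h7] at this
            exact hub this
          by_cases hub : u = b
          · rw [hub] at huw
            exact absurd huw (hcon w hw)
          by_cases hwb : w = b
          · rw [hwb] at huw
            exact absurd huw.symm (hcon u hu)
          exact hf u (hmem u hu hub) w (hmem w hw hwb) huw
        obtain ⟨w, hwX, hbw⟩ := hbw
        have hwα : w ∈ α := by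
          by_contra hwa
          have : w ∈ X \ α := ⟨hwX, hwa⟩
          rw [h7] at this
          rw [Set.mem_singleton_iff] at this
          exact hbw.ne this.symm
        have hvw : G.Adj v w := by
          by_contra hnv
          have h1 : w ≠ e₁ := fun e => hnv (e ▸ hve1)
          have h2 : w ≠ e₂ := fun e => hnv (e ▸ hve2)
          exact hend w hwα h1 h2 b (Or.inr hbm) hbw
        have h12 := hmin _ (triangle_not_bip hvb hbw hvw)
        have h13 : ({v, b, w} : Set V).ncard ≤ 3 := by
          refine (Set.ncard_insert_le _ _).trans ?_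
          have := Set.ncard_insert_le b {w}
          rw [Set.ncard_singleton] at this
          omega
        omega
      obtain ⟨a, ha, hva⟩ := h.deg hcard v (T := {x | x ∈ X ∧ G.Adj v x}) (by omega)
      obtain ⟨b, hb, hvb⟩ := h.deg hcard v (T := insert a {x | x ∈ X ∧ G.Adj v x}) (by
        have := Set.ncard_insert_le a {x | x ∈ X ∧ G.Adj v x}
        omega)
      refine ⟨a, fun haX => ha ⟨haX, hva⟩, b, fun hbX => hb (Or.inr ⟨hbX, hvb⟩), ?_, hva, hvb⟩
      intro hab
      exact hb (Or.inl hab.symm)
    obtain ⟨R, hR, hR2⟩ := exists_twoC hWne hdeg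
    exact ⟨X, R, hcyc, Set.disjoint_left.mpr (fun x hx hxR => hR hxR hx), hR2⟩
  · -- triangle
    have hXc : X.ncard + (Xᶜ).ncard = Nat.card V := Set.ncard_add_ncard_compl X
    refine ⟨X, Xᶜ, hcyc, disjoint_compl_right, by omega, h X (by omega), ?_⟩
    intro v _
    have e : Xᶜ \ {v} = (insert v X)ᶜ := by
      ext w
      simp only [Set.mem_sdiff, Set.mem_compl_iff, Set.mem_singleton_iff, Set.mem_insert_iff]
      tauto
    rw [e]
    apply h
    have := Set.ncard_insert_le v X
    omega

open Classical in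
/-- The potential of the set of leftover vertices. -/
noncomputable def Phi [Fintype V] (G : SimpleGraph V) (Y : Set V) : ℕ :=
  ∑ y : V, if y ∈ Y then 4 ^ (comp G Y y).ncard else 0

theorem main5 [Fintype V] {G : SimpleGraph V} (h : KC G 5) (hcard : 5 < Nat.card V)
    (hnb : ¬ Bip G Set.univ) : ∃ X : Set V, Cyc G X ∧ TwoC G Xᶜ := by
  classical
  obtain ⟨X₀, R₀, h01, h02, h03⟩ := init h hcard hnb
  obtain ⟨⟨X, R⟩, ⟨hX, hXR, hR⟩, hmax⟩ := Set.exists_max_image
    {p : Set V × Set V | Cyc G p.1 ∧ Disjoint p.1 p.2 ∧ TwoC G p.2}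
    (fun p => toLex (p.2.ncard, Phi G (p.1 ∪ p.2)ᶜ)) (Set.toFinite _) ⟨(X₀, R₀), h01, h02, h03⟩
  simp only at hX hXR hR
  have hmax1 : ∀ X' R' : Set V, Cyc G X' → Disjoint X' R' → TwoC G R' → R'.ncard ≤ R.ncard := by
    intro X' R' h1 h2 h3
    have h4 := hmax (X', R') ⟨h1, h2, h3⟩
    rw [Prod.Lex.toLex_le_toLex] at h4
    simp only at h4
    omega
  have hmax2 : ∀ X' : Set V, Cyc G X' → Disjoint X' R → Phi G (X' ∪ R)ᶜ ≤ Phi G (X ∪ R)ᶜ := by
    intro X' h1 h2
    have h4 := hmax (X', R) ⟨h1, h2, hR⟩
    rw [Prod.Lex.toLex_le_toLex] at h4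
    simp only at h4
    omega
  -- ears contradict maximality
  have hear : ∀ X' F : Set V, Cyc G X' → Disjoint X' R → Cn G F → Disjoint F R → Disjoint F X' →
      ∀ r ∈ R, ∀ s ∈ R, Att G F r → Att G F s → r = s := by
    intro X' F h1 h2 h3 h4 h5 r hr s hs ar as
    by_contra hrs
    obtain ⟨F₀, hF₀, hne, h6⟩ := ear hR h3 h4 hr hs hrs ar as
    have h7 := hmax1 X' (R ∪ F₀) h1 (Set.disjoint_union_right.mpr ⟨h2, (h5.mono_left hF₀).symm⟩) h6
    have h8 : (R ∪ F₀).ncard = R.ncard + F₀.ncard :=
      Set.ncard_union_eq (h4.mono_left hF₀).symm (Set.toFinite _) (Set.toFinite _)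
    have h9 : 0 < F₀.ncard := (Set.ncard_pos (Set.toFinite _)).mpr hne
    omega
  set Y : Set V := (X ∪ R)ᶜ with hYdef
  by_cases hYe : Y.Nonempty
  swap
  · rw [Set.not_nonempty_iff_eq_empty] at hYe
    refine ⟨X, hX, ?_⟩
    have : Xᶜ = R := by
      ext w
      constructor
      · intro hw
        by_contra hwR
        have : w ∈ Y := fun hc => hc.elim hw hwR
        rw [hYe] at this
        exact this
      · intro hw hwX
        exact Set.disjoint_left.mp hXR hwX hw
    rw [this]
    exact hR
  exfalso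
  obtain ⟨y₀, hy₀, hymin⟩ := Set.exists_min_image Y (fun y => (comp G Y y).ncard)
    (Set.toFinite _) hYe
  set A : Set V := comp G Y y₀ with hAdef
  have hAY : A ⊆ Y := comp_subset G Y y₀
  have hAcn : Cn G A := comp_cn hy₀
  have hYX : Disjoint Y X := Set.disjoint_left.mpr (fun y hy hyX => hy (Or.inl hyX))
  have hYR : Disjoint Y R := Set.disjoint_left.mpr (fun y hy hyR => hy (Or.inr hyR))
  have hAX : Disjoint A X := hYX.mono_left hAY
  have hAR : Disjoint A R := hYR.mono_left hAY
  -- (a) at most one attachment of `A` in `R`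
  have ha : ∀ r ∈ R, ∀ s ∈ R, Att G A r → Att G A s → r = s :=
    hear X A hX hXR hAcn hAR hAX
  have ha' : ({r | r ∈ R ∧ Att G A r} : Set V).ncard ≤ 1 := by
    rw [Set.ncard_le_one]
    intro r hr s hs
    exact ha r hr.1 s hs.1 hr.2 hs.2
  -- (b) at least three attachments in `X`
  have hb : 2 < ({x | x ∈ X ∧ Att G A x} : Set V).ncard := by
    by_contra hle
    push Not at hle
    have h1 := h.sep (U := A) (S := {x | x ∈ X ∧ Att G A x} ∪ {r | r ∈ R ∧ Att G A r}) hAcn.1 (by
        rw [Set.disjoint_left]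
        rintro a ha (h1 | h1)
        · exact Set.disjoint_left.mp hAX ha h1.1
        · exact Set.disjoint_left.mp hAR ha h1.1) (by
        have := Set.ncard_union_le {x | x ∈ X ∧ Att G A x} {r | r ∈ R ∧ Att G A r}
        omega) (by
        intro u hu w hwA hwS huw
        by_cases hwX : w ∈ X
        · exact hwS (Or.inl ⟨hwX, u, hu, huw⟩)
        by_cases hwR : w ∈ R
        · exact hwS (Or.inr ⟨hwR, u, hu, huw⟩)
        · exact comp_noadj hy₀ hu (fun hc => hc.elim hwX hwR) hwA huw)
    have h2 : R ⊆ {r | r ∈ R ∧ Att G A r} := by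
      intro r hr
      rcases h1 r with h3 | h3 | h3
      · exact absurd hr (Set.disjoint_left.mp hAR h3)
      · exact absurd hr (Set.disjoint_left.mp hXR h3.1)
      · exact h3
    have h3 := Set.ncard_le_ncard h2 (Set.toFinite _)
    have h4 := hR.1
    omega
  rw [Set.two_lt_ncard (Set.toFinite _)] at hb
  obtain ⟨x, hx, y, hy, z, hz, hxy, hxz, hyz⟩ := hb
  obtain ⟨α, hα, e₁, he₁, e₂, he₂, hbip, hFcn, hend⟩ := arc_lemma hX hAcn hx.1 hy.1 hz.1
    hxy hyz hxz hx.2 hy.2 hz.2
  set F : Set V := X \ α with hFdef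
  have hFX : F ⊆ X := Set.sdiff_subset
  have hFR : Disjoint F R := hXR.mono_left hFX
  have hFY : Disjoint F Y := (hYX.mono_right hFX).symm
  obtain ⟨X', hX'sub, hX'⟩ := exists_cyc hbip
  have hX'R : Disjoint X' R := by
    rw [Set.disjoint_left]
    intro w hw hwR
    rcases hX'sub hw with h1 | h1
    · exact Set.disjoint_left.mp hAR h1 hwR
    · exact Set.disjoint_left.mp hXR (hα h1) hwR
  have hFX' : Disjoint F X' := by
    rw [Set.disjoint_left]
    intro w hw hwX'
    rcases hX'sub hwX' with h1 | h1
    · exact Set.disjoint_left.mp hAX h1 (hFX hw)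
    · exact hw.2 h1
  -- (d) no other component is adjacent to `F`
  have hd : ∀ w ∈ Y, w ∉ A → ∀ u ∈ F, ¬ G.Adj u w := by
    intro w hwY hwA u hu huw
    set B : Set V := comp G Y w with hBdef
    have hBY : B ⊆ Y := comp_subset G Y w
    have hAB : Disjoint A B := by
      rw [Set.disjoint_left]
      intro a haA haB
      have e1 := comp_eq_of_mem hy₀ haA
      have e2 := comp_eq_of_mem hwY haB
      apply hwA
      have : A = B := by rw [hAdef, hBdef, ← e1, ← e2]
      rw [this]
      exact mem_comp_self hwY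
    set Y' : Set V := (X' ∪ R)ᶜ with hY'def
    have hY'1 : ∀ v ∈ Y, v ∉ A → v ∈ Y' := by
      intro v hvY hvA hc
      rcases hc with hc | hc
      · rcases hX'sub hc with h1 | h1
        · exact hvA h1
        · exact hvY (Or.inl (hα h1))
      · exact hvY (Or.inr hc)
    have hY'F : F ⊆ Y' := by
      intro v hv hc
      rcases hc with hc | hc
      · exact Set.disjoint_left.mp hFX' hv hc
      · exact Set.disjoint_left.mp hFR hv hc
    have hBY' : B ⊆ Y' := fun v hv => hY'1 v (hBY hv) (fun hvA => Set.disjoint_left.mp hAB hvA hv)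
    -- the potential increases
    have hptw : ∀ v : V, (if v ∈ Y then 4 ^ (comp G Y v).ncard else 0) +
        (if v ∈ B then 3 * 4 ^ B.ncard else 0) ≤
        (if v ∈ Y' then 4 ^ (comp G Y' v).ncard else 0) + (if v ∈ A then 4 ^ A.ncard else 0) := by
      intro v
      by_cases hvB : v ∈ B
      · have hvY : v ∈ Y := hBY hvB
        have hvY' : v ∈ Y' := hBY' hvB
        have e1 : comp G Y v = B := comp_eq_of_mem hwY hvB
        have h1 : B ∪ F ⊆ comp G Y' v := by
          apply subset_comp (Set.union_subset hBY' hY'F) _ (Or.inl hvB)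
          exact (comp_cn hwY).union hFcn (Or.inr ⟨w, mem_comp_self hwY, u, hu, huw.symm⟩)
        have h2 : B.ncard + 1 ≤ (comp G Y' v).ncard := by
          have h3 := Set.ncard_le_ncard h1 (Set.toFinite _)
          have h4 : (B ∪ F).ncard = B.ncard + F.ncard :=
            Set.ncard_union_eq (hFY.mono_right hBY).symm (Set.toFinite _) (Set.toFinite _)
          have h5 : 0 < F.ncard := (Set.ncard_pos (Set.toFinite _)).mpr hFcn.1
          omega
        have h3 : 4 ^ (B.ncard + 1) ≤ 4 ^ (comp G Y' v).ncard :=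
          Nat.pow_le_pow_right (by norm_num) h2
        rw [if_pos hvY, if_pos hvB, if_pos hvY', e1]
        rw [pow_succ] at h3
        omega
      · rw [if_neg hvB]
        by_cases hvY : v ∈ Y
        · by_cases hvA : v ∈ A
          · have e1 : comp G Y v = A := comp_eq_of_mem hy₀ hvA
            rw [if_pos hvY, if_pos hvA, e1]
            omega
          · have hvY' : v ∈ Y' := hY'1 v hvY hvA
            have h1 : comp G Y v ⊆ comp G Y' v := by
              apply subset_comp _ (comp_cn hvY) (mem_comp_self hvY)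
              intro z hz
              apply hY'1 z (comp_subset G Y v hz)
              intro hzA
              apply hvA
              have e1 := comp_eq_of_mem hy₀ hzA
              have e2 := comp_eq_of_mem hvY hz
              rw [hAdef, ← e1, e2]
              exact mem_comp_self hvY
            have h3 : 4 ^ (comp G Y v).ncard ≤ 4 ^ (comp G Y' v).ncard :=
              Nat.pow_le_pow_right (by norm_num) (Set.ncard_le_ncard h1 (Set.toFinite _))
            rw [if_pos hvY, if_pos hvY', if_neg hvA]
            omega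
        · rw [if_neg hvY]
          exact Nat.zero_le _
    have hsum := Finset.sum_le_sum (s := Finset.univ) (fun v _ => hptw v)
    rw [Finset.sum_add_distrib, Finset.sum_add_distrib] at hsum
    have hind : ∀ (C : Set V) (a : ℕ), ∑ v : V, (if v ∈ C then a else 0) = C.ncard * a := by
      intro C a
      rw [← Finset.sum_filter, Finset.sum_const, smul_eq_mul, Set.ncard_eq_toFinset_card']
      congr 2
      ext v
      simp
    rw [hind, hind] at hsum
    have h6 := hmax2 X' hX' hX'R
    have e1 : Phi G (X' ∪ R)ᶜ = ∑ v : V, (if v ∈ Y' then 4 ^ (comp G Y' v).ncard else 0) := by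
      unfold Phi
      exact Finset.sum_congr rfl (fun v _ => by congr)
    have e2 : Phi G Y = ∑ v : V, (if v ∈ Y then 4 ^ (comp G Y v).ncard else 0) := by
      unfold Phi
      exact Finset.sum_congr rfl (fun v _ => by congr)
    rw [e1, e2] at h6
    have h7 : A.ncard ≤ B.ncard := hymin w hwY
    have h8 : 0 < B.ncard := (Set.ncard_pos (Set.toFinite _)).mpr ⟨w, mem_comp_self hwY⟩
    have h9 : A.ncard * 4 ^ A.ncard ≤ B.ncard * 4 ^ B.ncard :=
      Nat.mul_le_mul h7 (Nat.pow_le_pow_right (by norm_num) h7)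
    have h10 : 0 < B.ncard * 4 ^ B.ncard := Nat.mul_pos h8 (by positivity)
    have h11 : B.ncard * (3 * 4 ^ B.ncard) = 3 * (B.ncard * 4 ^ B.ncard) := by ring
    rw [h11] at hsum
    omega
  -- (e) at most one attachment of `F` in `R`
  have he : ∀ r ∈ R, ∀ s ∈ R, Att G F r → Att G F s → r = s :=
    hear X' F hX' hX'R hFcn hFR hFX'
  have he' : ({r | r ∈ R ∧ Att G F r} : Set V).ncard ≤ 1 := by
    rw [Set.ncard_le_one]
    intro r hr s hs
    exact he r hr.1 s hs.1 hr.2 hs.2
  -- (f) the final cut
  have hfin := h.sep (U := A ∪ F)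
    (S := {e₁, e₂} ∪ ({r | r ∈ R ∧ Att G A r} ∪ {r | r ∈ R ∧ Att G F r}))
    (hAcn.1.mono Set.subset_union_left) (by
      rw [Set.disjoint_left]
      rintro u hu (h1 | h1 | h1)
      · have huα : u ∈ α := by
          simp only [Set.mem_insert_iff, Set.mem_singleton_iff] at h1
          rcases h1 with rfl | rfl
          · exact he₁
          · exact he₂
        rcases hu with hu | hu
        · exact Set.disjoint_left.mp hAX hu (hα huα)
        · exact hu.2 huα
      · rcases hu with hu | hu
        · exact Set.disjoint_left.mp hAR hu h1.1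
        · exact Set.disjoint_left.mp hFR hu h1.1
      · rcases hu with hu | hu
        · exact Set.disjoint_left.mp hAR hu h1.1
        · exact Set.disjoint_left.mp hFR hu h1.1) (by
      have h1 := Set.ncard_union_le {e₁, e₂}
        ({r | r ∈ R ∧ Att G A r} ∪ {r | r ∈ R ∧ Att G F r})
      have h2 := Set.ncard_union_le {r | r ∈ R ∧ Att G A r} {r | r ∈ R ∧ Att G F r}
      have h3 : ({e₁, e₂} : Set V).ncard ≤ 2 := by
        have := Set.ncard_insert_le e₁ {e₂}
        rw [Set.ncard_singleton] at this
        omega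
      omega) (by
      intro u hu w hwU hwS huw
      by_cases hwR : w ∈ R
      · rcases hu with hu | hu
        · exact hwS (Or.inr (Or.inl ⟨hwR, u, hu, huw⟩))
        · exact hwS (Or.inr (Or.inr ⟨hwR, u, hu, huw⟩))
      by_cases hwX : w ∈ X
      · have hwα : w ∈ α := by
          by_contra hwa
          exact hwU (Or.inr ⟨hwX, hwa⟩)
        have h1 : w ≠ e₁ := fun e => hwS (Or.inl (by simp [e]))
        have h2 : w ≠ e₂ := fun e => hwS (Or.inl (by simp [e]))
        exact hend w hwα h1 h2 u hu huw
      · have hwY : w ∈ Y := fun hc => hc.elim hwX hwR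
        have hwA : w ∉ A := fun hc => hwU (Or.inl hc)
        rcases hu with hu | hu
        · exact comp_noadj hy₀ hu hwY hwA huw
        · exact hd w hwY hwA u hu huw)
  have h2 : R ⊆ {r | r ∈ R ∧ Att G A r} ∪ {r | r ∈ R ∧ Att G F r} := by
    intro r hr
    rcases hfin r with (h3 | h3) | h3 | h3
    · exact absurd hr (Set.disjoint_left.mp hAR h3)
    · exact absurd hr (Set.disjoint_left.mp hFR h3)
    · exfalso
      have hrα : r ∈ α := by
        simp only [Set.mem_insert_iff, Set.mem_singleton_iff] at h3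
        rcases h3 with rfl | rfl
        · exact he₁
        · exact he₂
      exact Set.disjoint_left.mp hXR (hα hrα) hr
    · exact h3
  have h3 := Set.ncard_le_ncard h2 (Set.toFinite _)
  have h4 := Set.ncard_union_le {r | r ∈ R ∧ Att G A r} {r | r ∈ R ∧ Att G F r}
  have h5 := hR.1
  omega

end Run7.h414
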