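import Pool.Agent.Run7.h414.Count

set_option autoImplicit false

namespace Run7.h414

open SimpleGraph Finset
open scoped Classical

variable {V : Type*} [Fintype V]

/-- The set of vertices of level less than `l`. -/
noncomputable def low (l : ℕ) (ω : V → ℕ) : Finset V := univ.filter (fun v => ω v < l)

theorem low_iff {l : ℕ} {ω ω' : V → ℕ} (h : low l ω = low l ω') (v : V) :
    ω v < l ↔ ω' v < l := by
  have h1 : v ∈ low l ω ↔ v ∈ low l ω' := by rw [h]
  simpa [low] using h1

theorem isC_congr {G : SimpleGraph V} {W : Finset V} {l : ℕ} {ω ω' : V → ℕ}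
    (h : low l ω = low l ω') (Ξ : Finset V) : IsC G W l ω Ξ ↔ IsC G W l ω' Ξ := by
  unfold IsC
  have h1 : (∀ v ∈ Ξ, ω v < l) ↔ ∀ v ∈ Ξ, ω' v < l :=
    forall₂_congr (fun v _ => low_iff h v)
  have h2 : (∀ v ∈ bd G W Ξ, l ≤ ω v) ↔ ∀ v ∈ bd G W Ξ, l ≤ ω' v := by
    apply forall₂_congr
    intro v _
    have := low_iff h v
    rw [← not_lt, ← not_lt, this]
  rw [h1, h2]

theorem comps_congr {G : SimpleGraph V} {W : Finset V} {l : ℕ} {ω ω' : V → ℕ}
    (h : low l ω = low l ω') : comps G W l ω = comps G W l ω' := by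
  unfold comps
  exact Finset.filter_congr (fun Ξ _ => isC_congr h Ξ)

theorem conn_congr {G : SimpleGraph V} {W : Finset V} {l : ℕ} {ω ω' : V → ℕ}
    (h : low l ω = low l ω') (Ξ : Finset V) : conn G W l ω Ξ = conn G W l ω' Ξ := by
  unfold conn
  apply Finset.filter_congr
  intro w _
  apply exists_congr
  intro z
  rw [low_iff h z]

theorem bad1_congr {G : SimpleGraph V} {W : Finset V} {l θ : ℕ} {ω ω' : V → ℕ}
    (h : low l ω = low l ω') : Bad1 G W l θ ω ↔ Bad1 G W l θ ω' := by
  unfold Bad1 Few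
  apply exists_congr
  intro Ξ
  rw [isC_congr h, conn_congr h]
  have : (∃ z ∈ W, z ∉ Ξ ∧ ω z < l) ↔ ∃ z ∈ W, z ∉ Ξ ∧ ω' z < l := by
    apply exists_congr
    intro z
    rw [low_iff h z]
  rw [this]

/-- At least two components, all with many connectors. -/
def Ev (G : SimpleGraph V) (W : Finset V) (l θ : ℕ) (ω : V → ℕ) : Prop :=
  2 ≤ ncomp G W l ω ∧ ¬ Bad1 G W l θ ω

theorem ev_congr {G : SimpleGraph V} {W : Finset V} {l θ : ℕ} {ω ω' : V → ℕ}
    (h : low l ω = low l ω') : Ev G W l θ ω ↔ Ev G W l θ ω' := by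
  unfold Ev ncomp
  rw [comps_congr h, bad1_congr h]

theorem pow_half {M : ℕ} (hM : 0 < M) : (1 - 1 / (M : ℝ)) ^ M ≤ 1 / 2 := by
  have h1 : (1 : ℝ) ≤ M := by exact_mod_cast hM
  exact (Real.one_sub_div_pow_le_exp_neg h1).trans Real.exp_neg_one_lt_half.le

/-- One layer: on average at most half of the components stay unmerged. -/
theorem layer (G : SimpleGraph V) (W : Finset V) {M l θ : ℕ} (hl : l < M) (hθ : M ≤ θ) :
    ∑ ω ∈ (Om V M).filter (fun ω => Ev G W l θ ω), ((unm G W l ω).card : ℝ) ≤
      (1 / 2) * ∑ ω ∈ (Om V M).filter (fun ω => Ev G W l θ ω), (ncomp G W l ω : ℝ) := by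
  have hM : 0 < M := by omega
  set S := (Om V M).filter (fun ω => Ev G W l θ ω) with hS
  rw [← Finset.sum_fiberwise S (low l) (fun ω => ((unm G W l ω).card : ℝ)),
    ← Finset.sum_fiberwise S (low l) (fun ω => (ncomp G W l ω : ℝ)), Finset.mul_sum]
  apply Finset.sum_le_sum
  intro τ _
  rcases (S.filter (fun ω => low l ω = τ)).eq_empty_or_nonempty with h0 | ⟨ω₀, hω₀⟩
  · rw [h0]
    simp
  rw [mem_filter] at hω₀
  obtain ⟨hω₀S, hτ⟩ := hω₀
  rw [hS, mem_filter] at hω₀S
  obtain ⟨hω₀, hEv⟩ := hω₀S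
  set P : V → Finset ℕ := fun v => if v ∈ τ then range l else Ico l M with hP
  have hFib : S.filter (fun ω => low l ω = τ) = Fintype.piFinset P := by
    ext ω
    rw [mem_filter, hS, mem_filter, mem_Om, Fintype.mem_piFinset]
    constructor
    · rintro ⟨⟨h1, -⟩, h2⟩ v
      simp only [hP]
      split_ifs with h3
      · rw [← h2] at h3
        simp only [low, mem_filter, mem_univ, true_and] at h3
        rw [mem_range]
        exact h3
      · rw [← h2] at h3
        simp only [low, mem_filter, mem_univ, true_and, not_lt] at h3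
        rw [mem_Ico]
        exact ⟨h3, h1 v⟩
    · intro h1
      have h2 : low l ω = τ := by
        ext v
        simp only [low, mem_filter, mem_univ, true_and]
        have h3 := h1 v
        simp only [hP] at h3
        split_ifs at h3 with h4
        · rw [mem_range] at h3
          exact ⟨fun _ => h4, fun _ => h3⟩
        · rw [mem_Ico] at h3
          exact ⟨fun h => by omega, fun h => absurd h h4⟩
      refine ⟨⟨?_, ?_⟩, h2⟩
      · intro v
        have h3 := h1 v
        simp only [hP] at h3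
        split_ifs at h3 with h4
        · rw [mem_range] at h3
          omega
        · rw [mem_Ico] at h3
          omega
      · rw [ev_congr (h2.trans hτ.symm)]
        exact hEv
  have hlow : ∀ ω ∈ S.filter (fun ω => low l ω = τ), low l ω = low l ω₀ := by
    intro ω hω
    rw [mem_filter] at hω
    rw [hω.2, hτ]
  have e1 : ∑ ω ∈ S.filter (fun ω => low l ω = τ), (ncomp G W l ω : ℝ) =
      (ncomp G W l ω₀ : ℝ) * ((S.filter (fun ω => low l ω = τ)).card : ℝ) := by
    have : ∀ ω ∈ S.filter (fun ω => low l ω = τ), (ncomp G W l ω : ℝ) =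
        (ncomp G W l ω₀ : ℝ) := by
      intro ω hω
      unfold ncomp
      rw [comps_congr (hlow ω hω)]
    rw [Finset.sum_congr rfl this, Finset.sum_const, nsmul_eq_mul, mul_comm]
  have e2 : ∑ ω ∈ S.filter (fun ω => low l ω = τ), ((unm G W l ω).card : ℝ) =
      ∑ Ξ ∈ comps G W l ω₀, (((S.filter (fun ω => low l ω = τ)).filter
        (fun ω => ∀ w ∈ conn G W l ω₀ Ξ, ω w ≠ l)).card : ℝ) := by
    have h1 : ∀ ω ∈ S.filter (fun ω => low l ω = τ), ((unm G W l ω).card : ℝ) =
        ∑ Ξ ∈ comps G W l ω₀, (if (∀ w ∈ conn G W l ω₀ Ξ, ω w ≠ l) then (1 : ℝ) else 0) := by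
      intro ω hω
      unfold unm
      rw [comps_congr (hlow ω hω), Finset.sum_boole]
      congr 2
      apply Finset.filter_congr
      intro Ξ _
      rw [conn_congr (hlow ω hω)]
    rw [Finset.sum_congr rfl h1, Finset.sum_comm]
    apply Finset.sum_congr rfl
    intro Ξ _
    rw [Finset.sum_boole]
  rw [e1, e2]
  have hone : ∀ Ξ ∈ comps G W l ω₀, (((S.filter (fun ω => low l ω = τ)).filter
        (fun ω => ∀ w ∈ conn G W l ω₀ Ξ, ω w ≠ l)).card : ℝ) ≤
        (1 / 2) * ((S.filter (fun ω => low l ω = τ)).card : ℝ) := by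
    intro Ξ hΞ
    set Q := conn G W l ω₀ Ξ with hQ
    have hQcard : θ ≤ Q.card := by
      by_contra hlt
      push Not at hlt
      apply hEv.2
      refine ⟨Ξ, mem_comps.mp hΞ, ?_, hlt⟩
      -- another component
      obtain ⟨Ψ, hΨ, hne⟩ : ∃ Ψ ∈ comps G W l ω₀, Ψ ≠ Ξ := by
        by_contra hcon
        push Not at hcon
        have : comps G W l ω₀ ⊆ {Ξ} := by
          intro x hx
          rw [mem_singleton]
          exact hcon x hx
        have h3 := Finset.card_le_card this
        have h4 := hEv.1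
        unfold ncomp at h4
        rw [card_singleton] at h3
        omega
      rw [mem_comps] at hΨ
      obtain ⟨z, hz⟩ := hΨ.2.1.1
      refine ⟨z, hΨ.1 hz, ?_, hΨ.2.2.1 z hz⟩
      intro hzΞ
      exact hne (hΨ.eq_of_meets (mem_comps.mp hΞ) hz hzΞ)
    have hQτ : ∀ v ∈ Q, v ∉ τ := by
      intro v hv hvτ
      rw [hQ] at hv
      unfold conn at hv
      rw [mem_filter] at hv
      have h1 := (mem_comps.mp hΞ).2.2.2 v hv.1
      rw [← hτ] at hvτ
      simp only [low, mem_filter, mem_univ, true_and] at hvτ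
      omega
    have h1 := weight_bound P (fun v c => if (v ∈ Q → c ≠ l) then (1 : ℝ) else 0) Q
      (1 - 1 / (M : ℝ)) (fun v c => by split_ifs <;> norm_num)
      (fun v c _ => by split_ifs <;> norm_num) (by
        intro v hv
        have hPv : P v = Ico l M := by
          simp only [hP, if_neg (hQτ v hv)]
        rw [hPv]
        have e : ∑ c ∈ Ico l M, (if (v ∈ Q → c ≠ l) then (1 : ℝ) else 0) =
            ((Ico (l + 1) M).card : ℝ) := by
          have e0 : (Ico l M).filter (fun c => c ≠ l) = Ico (l + 1) M := by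
            ext c
            simp only [mem_filter, mem_Ico]
            omega
          rw [← e0, ← Finset.sum_boole]
          apply Finset.sum_congr rfl
          intro c _
          simp [hv]
        rw [e, Nat.card_Ico, Nat.card_Ico]
        have hMl : ((M - (l + 1) : ℕ) : ℝ) = (M : ℝ) - l - 1 := by
          rw [Nat.cast_sub (by omega)]
          push_cast
          ring
        rw [hMl, Nat.cast_sub hl.le]
        have hMpos : (0 : ℝ) < M := by exact_mod_cast hM
        have h2 : (1 - 1 / (M : ℝ)) * ((M : ℝ) - l) = (M : ℝ) - l - 1 + l / M := by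
          field_simp
          ring
        rw [h2]
        have : (0 : ℝ) ≤ (l : ℝ) / M := by positivity
        linarith)
    have h2 : ∑ ω ∈ Fintype.piFinset P, ∏ v, (if (v ∈ Q → ω v ≠ l) then (1 : ℝ) else 0) =
        (((Fintype.piFinset P).filter (fun ω => ∀ v ∈ Q, ω v ≠ l)).card : ℝ) := by
      rw [← Finset.sum_boole]
      apply Finset.sum_congr rfl
      intro ω _
      rw [Finset.prod_ite_zero]
      simp
    rw [h2] at h1
    rw [hFib]
    refine h1.trans ?_
    apply mul_le_mul_of_nonneg_right _ (by positivity)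
    have hMr : (1 : ℝ) ≤ M := by exact_mod_cast hM
    have h3 : (0 : ℝ) ≤ 1 - 1 / (M : ℝ) := by
      rw [sub_nonneg, div_le_one (by linarith)]
      exact hMr
    have h4 : 1 - 1 / (M : ℝ) ≤ 1 := by
      have : (0 : ℝ) ≤ 1 / (M : ℝ) := by positivity
      linarith
    exact (pow_le_pow_of_le_one h3 h4 (hθ.trans hQcard)).trans (pow_half hM)
  refine (Finset.sum_le_sum hone).trans ?_
  rw [Finset.sum_const, nsmul_eq_mul]
  unfold ncomp
  apply le_of_eq
  ring

/-- The truncated number of components. -/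
noncomputable def yy (G : SimpleGraph V) (W : Finset V) (l : ℕ) (ω : V → ℕ) : ℝ :=
  if 2 ≤ ncomp G W l ω then (ncomp G W l ω : ℝ) else 0

theorem yy_nonneg (G : SimpleGraph V) (W : Finset V) (l : ℕ) (ω : V → ℕ) :
    0 ≤ yy G W l ω := by
  unfold yy
  split_ifs <;> positivity

theorem yy_le (G : SimpleGraph V) (W : Finset V) (l : ℕ) (ω : V → ℕ) :
    yy G W l ω ≤ (Fintype.card V : ℝ) := by
  unfold yy
  split_ifs
  · exact_mod_cast ncomp_le G W l ω
  · positivity

theorem step (G : SimpleGraph V) (W : Finset V) {M l θ : ℕ} (hl : l < M) (hθ : M ≤ θ) :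
    ∑ ω ∈ Om V M, yy G W (l + 1) ω ≤ (3 / 4) * ∑ ω ∈ Om V M, yy G W l ω +
      (Fintype.card V : ℝ) * ((((Om V M).filter (fun ω => ¬ Dom G W l ω)).card : ℝ) +
        (((Om V M).filter (fun ω => Bad1 G W l θ ω)).card : ℝ)) := by
  have hpt : ∀ ω ∈ Om V M, yy G W (l + 1) ω ≤
      (1 / 2) * (if Ev G W l θ ω then (ncomp G W l ω : ℝ) else 0) +
      (1 / 2) * (if Ev G W l θ ω then ((unm G W l ω).card : ℝ) else 0) +
      (Fintype.card V : ℝ) * ((if ¬ Dom G W l ω then (1 : ℝ) else 0) +
        (if Bad1 G W l θ ω then (1 : ℝ) else 0)) := by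
    intro ω _
    have hn : (0 : ℝ) ≤ (Fintype.card V : ℝ) := by positivity
    have hA : (0 : ℝ) ≤ (1 / 2) * (if Ev G W l θ ω then (ncomp G W l ω : ℝ) else 0) := by
      split_ifs <;> positivity
    have hB : (0 : ℝ) ≤ (1 / 2) * (if Ev G W l θ ω then ((unm G W l ω).card : ℝ) else 0) := by
      split_ifs <;> positivity
    have hC := yy_le G W (l + 1) ω
    by_cases hD : Dom G W l ω
    · by_cases hb : Bad1 G W l θ ω
      · rw [if_neg (not_not.mpr hD), if_pos hb]
        linarith
      · rw [if_neg (not_not.mpr hD), if_neg hb]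
        unfold yy
        split_ifs with h1 h2
        · have h3 := merge (G := G) (W := W) (l := l) (ω := ω) hD
          have h4 : 2 * (ncomp G W (l + 1) ω : ℝ) ≤ ncomp G W l ω + ((unm G W l ω).card : ℝ) := by
            exact_mod_cast h3
          linarith
        · exfalso
          apply h2
          refine ⟨?_, hb⟩
          have h3 := merge (G := G) (W := W) (l := l) (ω := ω) hD
          have h4 := unm_le G W l ω
          omega
        · positivity
        · simp
    · rw [if_pos hD]
      have : (0 : ℝ) ≤ (if Bad1 G W l θ ω then (1 : ℝ) else 0) := by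
        split_ifs <;> norm_num
      nlinarith
  refine (Finset.sum_le_sum hpt).trans ?_
  rw [Finset.sum_add_distrib, Finset.sum_add_distrib, ← Finset.mul_sum, ← Finset.mul_sum,
    ← Finset.mul_sum, Finset.sum_add_distrib, Finset.sum_boole, Finset.sum_boole,
    ← Finset.sum_filter, ← Finset.sum_filter]
  have h1 := layer G W hl hθ
  have h2 : ∑ ω ∈ (Om V M).filter (fun ω => Ev G W l θ ω), (ncomp G W l ω : ℝ) ≤
      ∑ ω ∈ Om V M, yy G W l ω := by
    rw [Finset.sum_filter]
    apply Finset.sum_le_sum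
    intro ω _
    unfold yy
    by_cases h3 : Ev G W l θ ω
    · rw [if_pos h3, if_pos h3.1]
    · rw [if_neg h3]
      split_ifs <;> positivity
  linarith

end Run7.h414
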