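import Pool.Agent.Run7.h414.Walks

set_option autoImplicit false

namespace Run7.h414

open SimpleGraph Finset
open scoped Classical

variable {V : Type*} [Fintype V]

/-- Outer boundary of `Ξ` inside `W`. -/
noncomputable def bd (G : SimpleGraph V) (W Ξ : Finset V) : Finset V :=
  W.filter (fun v => v ∉ Ξ ∧ ∃ u ∈ Ξ, G.Adj u v)

/-- `Ξ` is a component of the set of the vertices of `W` of level less than `l`. -/
def IsC (G : SimpleGraph V) (W : Finset V) (l : ℕ) (ω : V → ℕ) (Ξ : Finset V) : Prop :=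
  Ξ ⊆ W ∧ Cn G (Ξ : Set V) ∧ (∀ v ∈ Ξ, ω v < l) ∧ ∀ v ∈ bd G W Ξ, l ≤ ω v

/-- The components at level `l`. -/
noncomputable def comps (G : SimpleGraph V) (W : Finset V) (l : ℕ) (ω : V → ℕ) :
    Finset (Finset V) := univ.filter (fun Ξ => IsC G W l ω Ξ)

/-- The number of components at level `l`. -/
noncomputable def ncomp (G : SimpleGraph V) (W : Finset V) (l : ℕ) (ω : V → ℕ) : ℕ :=
  (comps G W l ω).card

/-- Connectors of `Ξ`: boundary vertices with a neighbour of level less than `l` outside `Ξ`. -/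
noncomputable def conn (G : SimpleGraph V) (W : Finset V) (l : ℕ) (ω : V → ℕ) (Ξ : Finset V) :
    Finset V := (bd G W Ξ).filter (fun w => ∃ z ∈ W, z ∉ Ξ ∧ ω z < l ∧ G.Adj w z)

/-- Components none of whose connectors has level exactly `l`. -/
noncomputable def unm (G : SimpleGraph V) (W : Finset V) (l : ℕ) (ω : V → ℕ) :
    Finset (Finset V) := (comps G W l ω).filter (fun Ξ => ∀ w ∈ conn G W l ω Ξ, ω w ≠ l)

/-- Total domination of `W` by its vertices of level less than `l`. -/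
def Dom (G : SimpleGraph V) (W : Finset V) (l : ℕ) (ω : V → ℕ) : Prop :=
  ∀ w ∈ W, ∃ v ∈ W, G.Adj w v ∧ ω v < l

theorem mem_comps {G : SimpleGraph V} {W : Finset V} {l : ℕ} {ω : V → ℕ} {Ξ : Finset V} :
    Ξ ∈ comps G W l ω ↔ IsC G W l ω Ξ := by simp [comps]

/-- A connected low set meeting a component lies inside it. -/
theorem IsC.subset_of_meets {G : SimpleGraph V} {W : Finset V} {l : ℕ} {ω : V → ℕ}
    {Ξ : Finset V} (h : IsC G W l ω Ξ) {K : Set V} (hK : Cn G K) (hKW : K ⊆ (W : Set V))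
    (hKl : ∀ v ∈ K, ω v < l) {v : V} (hvK : v ∈ K) (hvΞ : v ∈ Ξ) : K ⊆ (Ξ : Set V) := by
  by_contra hcon
  rw [Set.not_subset] at hcon
  obtain ⟨b, hbK, hb⟩ := hcon
  obtain ⟨u, hu, w, hw, huw⟩ := hK.2 (K ∩ (Ξ : Set V)) Set.inter_subset_left ⟨v, hvK, hvΞ⟩
    ⟨b, hbK, fun hh => hb hh.2⟩
  have hwΞ : w ∉ Ξ := fun hh => hw.2 ⟨hw.1, hh⟩
  have h1 : w ∈ bd G W Ξ := by
    unfold bd
    rw [mem_filter]
    exact ⟨hKW hw.1, hwΞ, u, hu.2, huw⟩
  have h2 := h.2.2.2 w h1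
  have h3 := hKl w hw.1
  omega

theorem IsC.eq_of_meets {G : SimpleGraph V} {W : Finset V} {l : ℕ} {ω : V → ℕ}
    {Ξ Ξ' : Finset V} (h : IsC G W l ω Ξ) (h' : IsC G W l ω Ξ') {v : V} (hv : v ∈ Ξ)
    (hv' : v ∈ Ξ') : Ξ = Ξ' := by
  apply Finset.Subset.antisymm
  · have := h'.subset_of_meets h.2.1 (by exact_mod_cast h.1) (fun v hv => h.2.2.1 v hv) hv hv'
    exact_mod_cast this
  · have := h.subset_of_meets h'.2.1 (by exact_mod_cast h'.1) (fun v hv => h'.2.2.1 v hv) hv' hv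
    exact_mod_cast this

theorem exists_comp {G : SimpleGraph V} {W : Finset V} {l : ℕ} {ω : V → ℕ} {v : V}
    (hv : v ∈ W) (hl : ω v < l) : ∃ Ξ, IsC G W l ω Ξ ∧ v ∈ Ξ := by
  set Y : Set V := {x | x ∈ W ∧ ω x < l} with hY
  have hvY : v ∈ Y := ⟨hv, hl⟩
  refine ⟨(comp G Y v).toFinset, ⟨?_, ?_, ?_, ?_⟩, ?_⟩
  · intro x hx
    rw [Set.mem_toFinset] at hx
    exact (comp_subset G Y v hx).1
  · rw [Set.coe_toFinset]
    exact comp_cn hvY
  · intro x hx
    rw [Set.mem_toFinset] at hx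
    exact (comp_subset G Y v hx).2
  · intro x hx
    unfold bd at hx
    rw [mem_filter] at hx
    obtain ⟨hxW, hx1, u, hu, hux⟩ := hx
    rw [Set.mem_toFinset] at hx1 hu
    by_contra hlt
    push Not at hlt
    exact comp_noadj hvY hu ⟨hxW, hlt⟩ hx1 hux
  · rw [Set.mem_toFinset]
    exact mem_comp_self hvY

theorem ncomp_le (G : SimpleGraph V) (W : Finset V) (l : ℕ) (ω : V → ℕ) :
    ncomp G W l ω ≤ Fintype.card V := by
  unfold ncomp
  have hne : ∀ Ξ ∈ comps G W l ω, ∃ v, v ∈ Ξ := by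
    intro Ξ hΞ
    rw [mem_comps] at hΞ
    exact hΞ.2.1.1
  rw [← Finset.card_univ]
  rcases (comps G W l ω).eq_empty_or_nonempty with h0 | ⟨Ξ₀, h0⟩
  · rw [h0]
    simp
  obtain ⟨v₀, hv₀⟩ := hne Ξ₀ h0
  have hch : ∀ Ξ : Finset V, ∃ v, Ξ ∈ comps G W l ω → v ∈ Ξ := by
    intro Ξ
    by_cases h : Ξ ∈ comps G W l ω
    · obtain ⟨v, hv⟩ := hne Ξ h
      exact ⟨v, fun _ => hv⟩
    · exact ⟨v₀, fun hh => absurd hh h⟩
  choose f hf using hch
  apply Finset.card_le_card_of_injOn f (fun _ _ => mem_univ _)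
  intro Ξ hΞ Ξ' hΞ' he
  have h1 := hf Ξ hΞ
  have h2 := hf Ξ' hΞ'
  rw [he] at h1
  exact (mem_comps.mp hΞ).eq_of_meets (mem_comps.mp hΞ') h1 h2

theorem unm_le (G : SimpleGraph V) (W : Finset V) (l : ℕ) (ω : V → ℕ) :
    (unm G W l ω).card ≤ ncomp G W l ω := Finset.card_le_card (Finset.filter_subset _ _)

/-- The merging inequality. -/
theorem merge {G : SimpleGraph V} {W : Finset V} {l : ℕ} {ω : V → ℕ} (hD : Dom G W l ω) :
    2 * ncomp G W (l + 1) ω ≤ ncomp G W l ω + (unm G W l ω).card := by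
  have hex : ∀ Ξ : Finset V, ∃ Ξ' : Finset V, Ξ ∈ comps G W l ω →
      Ξ' ∈ comps G W (l + 1) ω ∧ Ξ ⊆ Ξ' := by
    intro Ξ
    by_cases h : Ξ ∈ comps G W l ω
    · rw [mem_comps] at h
      obtain ⟨v, hv⟩ := h.2.1.1
      obtain ⟨Ξ', h1, h2⟩ := exists_comp (G := G) (W := W) (l := l + 1) (ω := ω)
        (h.1 hv) (by have := h.2.2.1 v hv; omega)
      refine ⟨Ξ', fun _ => ⟨mem_comps.mpr h1, ?_⟩⟩
      have := h1.subset_of_meets h.2.1 (by exact_mod_cast h.1)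
        (fun x hx => by have := h.2.2.1 x hx; omega) hv h2
      exact_mod_cast this
    · exact ⟨∅, fun hh => absurd hh h⟩
  choose f hf using hex
  have e1 : ncomp G W l ω = ∑ b ∈ comps G W (l + 1) ω,
      ((comps G W l ω).filter (fun a => f a = b)).card :=
    Finset.card_eq_sum_card_fiberwise (fun Ξ hΞ => (hf Ξ hΞ).1)
  have e2 : (unm G W l ω).card = ∑ b ∈ comps G W (l + 1) ω,
      ((unm G W l ω).filter (fun a => f a = b)).card :=
    Finset.card_eq_sum_card_fiberwise (fun Ξ hΞ => (hf Ξ (Finset.filter_subset _ _ hΞ)).1)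
  have e3 : 2 * ncomp G W (l + 1) ω = ∑ b ∈ comps G W (l + 1) ω, 2 := by
    rw [Finset.sum_const, smul_eq_mul, mul_comm]
    rfl
  rw [e1, e2, e3, ← Finset.sum_add_distrib]
  apply Finset.sum_le_sum
  intro Ξ' hΞ'
  rw [mem_comps] at hΞ'
  -- every low vertex of `Ξ'` has its component mapped to `Ξ'`
  have hlow : ∀ z ∈ Ξ', ω z < l → ∀ Ξ, IsC G W l ω Ξ → z ∈ Ξ → f Ξ = Ξ' := by
    intro z hz hzl Ξ hΞ hzΞ
    obtain ⟨h1, h2⟩ := hf Ξ (mem_comps.mpr hΞ)
    exact (mem_comps.mp h1).eq_of_meets hΞ' (h2 hzΞ) hz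
  -- there is a low vertex
  have hexz : ∃ z ∈ Ξ', ω z < l := by
    obtain ⟨v, hv⟩ := hΞ'.2.1.1
    by_cases hvl : ω v < l
    · exact ⟨v, hv, hvl⟩
    · obtain ⟨z, hzW, hvz, hzl⟩ := hD v (hΞ'.1 hv)
      refine ⟨z, ?_, hzl⟩
      by_contra hz
      have h1 : z ∈ bd G W Ξ' := by
        unfold bd
        rw [mem_filter]
        exact ⟨hzW, hz, v, hv, hvz⟩
      have := hΞ'.2.2.2 z h1
      omega
  obtain ⟨z, hz, hzl⟩ := hexz
  obtain ⟨Ξ, hΞ, hzΞ⟩ := exists_comp (G := G) (W := W) (l := l) (ω := ω) (hΞ'.1 hz) hzl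
  have hfΞ := hlow z hz hzl Ξ hΞ hzΞ
  have hmem : Ξ ∈ (comps G W l ω).filter (fun a => f a = Ξ') := by
    rw [mem_filter]
    exact ⟨mem_comps.mpr hΞ, hfΞ⟩
  by_cases hu : Ξ ∈ unm G W l ω
  · have h1 : 0 < ((comps G W l ω).filter (fun a => f a = Ξ')).card :=
      Finset.card_pos.mpr ⟨Ξ, hmem⟩
    have h2 : 0 < ((unm G W l ω).filter (fun a => f a = Ξ')).card := by
      apply Finset.card_pos.mpr
      exact ⟨Ξ, by rw [mem_filter]; exact ⟨hu, hfΞ⟩⟩
    omega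
  · -- a second component in the fibre
    have h1 : ∃ w ∈ conn G W l ω Ξ, ω w = l := by
      by_contra hcon
      push Not at hcon
      apply hu
      unfold unm
      rw [mem_filter]
      exact ⟨mem_comps.mpr hΞ, hcon⟩
    obtain ⟨w, hw, hwl⟩ := h1
    unfold conn at hw
    rw [mem_filter] at hw
    obtain ⟨hwbd, y, hyW, hyΞ, hyl, hwy⟩ := hw
    unfold bd at hwbd
    rw [mem_filter] at hwbd
    obtain ⟨hwW, hwΞ, u, huΞ, huw⟩ := hwbd
    have hsub : Ξ ⊆ Ξ' := by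
      have := (hf Ξ (mem_comps.mpr hΞ)).2
      rw [hfΞ] at this
      exact this
    have hwΞ' : w ∈ Ξ' := by
      by_contra hc
      have h1 : w ∈ bd G W Ξ' := by
        unfold bd
        rw [mem_filter]
        exact ⟨hwW, hc, u, hsub huΞ, huw⟩
      have := hΞ'.2.2.2 w h1
      omega
    have hyΞ' : y ∈ Ξ' := by
      by_contra hc
      have h1 : y ∈ bd G W Ξ' := by
        unfold bd
        rw [mem_filter]
        exact ⟨hyW, hc, w, hwΞ', hwy⟩
      have := hΞ'.2.2.2 y h1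
      omega
    obtain ⟨Ψ, hΨ, hyΨ⟩ := exists_comp (G := G) (W := W) (l := l) (ω := ω) hyW hyl
    have hfΨ := hlow y hyΞ' hyl Ψ hΨ hyΨ
    have hne : Ξ ≠ Ψ := fun he => hyΞ (he ▸ hyΨ)
    have h5 : ({Ξ, Ψ} : Finset (Finset V)).card = 2 := Finset.card_pair hne
    have h6 : ({Ξ, Ψ} : Finset (Finset V)) ⊆ (comps G W l ω).filter (fun a => f a = Ξ') := by
      intro x hx
      simp only [Finset.mem_insert, Finset.mem_singleton] at hx
      rcases hx with rfl | rfl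
      · exact hmem
      · rw [mem_filter]
        exact ⟨mem_comps.mpr hΨ, hfΨ⟩
    have h7 := Finset.card_le_card h6
    omega

/-- If there is at most one component and `W` is dominated, the low vertices are connected. -/
theorem cn_of_ncomp {G : SimpleGraph V} {W : Finset V} {l : ℕ} {ω : V → ℕ} (hW : W.Nonempty)
    (hD : Dom G W l ω) (h1 : ncomp G W l ω ≤ 1) : Cn G {v | v ∈ W ∧ ω v < l} := by
  obtain ⟨w, hw⟩ := hW
  obtain ⟨v, hv, -, hvl⟩ := hD w hw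
  obtain ⟨Ξ, hΞ, hvΞ⟩ := exists_comp (G := G) (W := W) (l := l) (ω := ω) hv hvl
  have e : ({v | v ∈ W ∧ ω v < l} : Set V) = (Ξ : Set V) := by
    ext x
    constructor
    · rintro ⟨hx, hxl⟩
      obtain ⟨Ψ, hΨ, hxΨ⟩ := exists_comp (G := G) (W := W) (l := l) (ω := ω) hx hxl
      have h2 : Ξ = Ψ := Finset.card_le_one.mp h1 Ξ (mem_comps.mpr hΞ) Ψ (mem_comps.mpr hΨ)
      rw [h2]
      exact hxΨ
    · intro hx
      exact ⟨hΞ.1 hx, hΞ.2.2.1 x hx⟩
  rw [e]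
  exact hΞ.2.1

end Run7.h414
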