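import Pool.Agent.Run7.h414.Layer

set_option autoImplicit false

namespace Run7.h414

open SimpleGraph Finset
open scoped Classical

variable {V : Type*} [Fintype V]

theorem iterate_bound (G : SimpleGraph V) (W : Finset V) {r : ℕ} (hr : 0 < r) (δ : ℝ)
    (hδ : ∀ l, r ≤ l → l ≤ 4 * r →
      (((Om V (4 * r)).filter (fun ω => ¬ Dom G W l ω)).card : ℝ) +
        (((Om V (4 * r)).filter (fun ω => Bad1 G W l (4 * r) ω)).card : ℝ) ≤
        δ * ((Om V (4 * r)).card : ℝ)) :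
    ∀ j ≤ r, ∑ ω ∈ Om V (4 * r), yy G W (r + j) ω ≤
      ((3 / 4 : ℝ) ^ j * (Fintype.card V : ℝ) + 4 * ((Fintype.card V : ℝ) * δ)) *
        ((Om V (4 * r)).card : ℝ) := by
  have hδ0 : 0 ≤ δ * ((Om V (4 * r)).card : ℝ) :=
    le_trans (by positivity) (hδ r le_rfl (by omega))
  intro j
  induction j with
  | zero =>
    intro _
    have h1 : ∑ ω ∈ Om V (4 * r), yy G W (r + 0) ω ≤
        ∑ ω ∈ Om V (4 * r), (Fintype.card V : ℝ) := Finset.sum_le_sum (fun ω _ => yy_le G W _ ω)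
    rw [Finset.sum_const, nsmul_eq_mul] at h1
    have h2 : 0 ≤ (Fintype.card V : ℝ) * (δ * ((Om V (4 * r)).card : ℝ)) :=
      mul_nonneg (by positivity) hδ0
    rw [pow_zero]
    nlinarith
  | succ j ih =>
    intro hj
    have h1 := step G W (M := 4 * r) (l := r + j) (θ := 4 * r) (by omega) le_rfl
    have h2 := ih (by omega)
    have h3 := hδ (r + j) (by omega) (by omega)
    have h4 : (Fintype.card V : ℝ) *
        ((((Om V (4 * r)).filter (fun ω => ¬ Dom G W (r + j) ω)).card : ℝ) +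
        (((Om V (4 * r)).filter (fun ω => Bad1 G W (r + j) (4 * r) ω)).card : ℝ)) ≤
        (Fintype.card V : ℝ) * (δ * ((Om V (4 * r)).card : ℝ)) :=
      mul_le_mul_of_nonneg_left h3 (by positivity)
    have h5 : r + (j + 1) = r + j + 1 := by omega
    rw [h5, pow_succ]
    nlinarith

/-- One class: the vertices of the lower half of the levels form a connected dominating set
of `W`, up to a small failure probability. -/
theorem oneclass (G : SimpleGraph V) (W : Finset V) {r : ℕ} (hr : 0 < r) (hW : W.Nonempty)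
    (hKC : ∀ S : Set V, S.ncard < 64 * r → Cn G ((W : Set V) \ S))
    (hdeg : ∀ w ∈ W, 64 * r ≤ (W.filter (fun v => G.Adj w v)).card) :
    (((Om V (4 * r)).filter (fun ω => ¬ (Dom G W (2 * r) ω ∧
      Cn G {v | v ∈ W ∧ ω v < 2 * r}))).card : ℝ) ≤
      10 * (Fintype.card V : ℝ) ^ 2 * (3 / 4 : ℝ) ^ r * ((Om V (4 * r)).card : ℝ) := by
  set n : ℝ := (Fintype.card V : ℝ) with hn
  set O : ℝ := ((Om V (4 * r)).card : ℝ) with hO
  have hn1 : 1 ≤ n := by
    obtain ⟨w, -⟩ := hW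
    have h1 : 0 < Fintype.card V := Fintype.card_pos_iff.mpr ⟨w⟩
    have h2 : 1 ≤ Fintype.card V := h1
    rw [hn]
    exact_mod_cast h2
  have hO0 : 0 ≤ O := by positivity
  have hpos : (0 : ℝ) < (3 / 4 : ℝ) ^ r := by positivity
  -- the two small numbers
  have hs1 : (3 / 4 : ℝ) ^ (64 * r) ≤ (3 / 4 : ℝ) ^ r :=
    pow_le_pow_of_le_one (by norm_num) (by norm_num) (by omega)
  have hs2 : (2 : ℝ) ^ (4 * r) * (7 / 8 : ℝ) ^ (32 * r) ≤ (3 / 4 : ℝ) ^ r := by
    rw [pow_mul, pow_mul, ← mul_pow]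
    apply pow_le_pow_left₀ (by positivity)
    norm_num
  have hdom : ∀ l, r ≤ l → l ≤ 4 * r →
      (((Om V (4 * r)).filter (fun ω => ¬ Dom G W l ω)).card : ℝ) ≤ n * ((3 / 4 : ℝ) ^ r * O) := by
    intro l h1 h2
    refine (dom_count G W h1 h2 hdeg).trans ?_
    apply mul_le_mul_of_nonneg_left _ (by positivity)
    exact mul_le_mul_of_nonneg_right hs1 hO0
  have hδ : ∀ l, r ≤ l → l ≤ 4 * r →
      (((Om V (4 * r)).filter (fun ω => ¬ Dom G W l ω)).card : ℝ) +
        (((Om V (4 * r)).filter (fun ω => Bad1 G W l (4 * r) ω)).card : ℝ) ≤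
        (2 * n * (3 / 4 : ℝ) ^ r) * ((Om V (4 * r)).card : ℝ) := by
    intro l h1 h2
    have h3 := hdom l h1 h2
    have h4 := type1 G W (g := 64 * r) (m := 32 * r) (θ := 4 * r) (r := r) (l := l) (by omega)
      (by omega) h1 h2 hKC hdeg
    have h5 : (2 : ℝ) ^ (4 * r) * (7 / 8 : ℝ) ^ (32 * r) * (n * O) ≤ (3 / 4 : ℝ) ^ r * (n * O) :=
      mul_le_mul_of_nonneg_right hs2 (by positivity)
    rw [← hn, ← hO] at h4
    rw [← hO]
    nlinarith
  have hit := iterate_bound G W hr _ hδ r le_rfl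
  rw [← hn, ← hO] at hit
  have hsub : (Om V (4 * r)).filter (fun ω => ¬ (Dom G W (2 * r) ω ∧
      Cn G {v | v ∈ W ∧ ω v < 2 * r})) ⊆
      (Om V (4 * r)).filter (fun ω => ¬ Dom G W (2 * r) ω) ∪
      (Om V (4 * r)).filter (fun ω => 2 ≤ ncomp G W (2 * r) ω) := by
    intro ω hω
    rw [mem_filter] at hω
    rw [mem_union, mem_filter, mem_filter]
    by_cases hD : Dom G W (2 * r) ω
    · right
      refine ⟨hω.1, ?_⟩
      by_contra hlt
      push Not at hlt
      exact hω.2 ⟨hD, cn_of_ncomp hW hD (by omega)⟩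
    · exact Or.inl ⟨hω.1, hD⟩
  have h1 := (Finset.card_le_card hsub).trans (Finset.card_union_le _ _)
  have h2 : (((Om V (4 * r)).filter (fun ω => ¬ (Dom G W (2 * r) ω ∧
      Cn G {v | v ∈ W ∧ ω v < 2 * r}))).card : ℝ) ≤
      (((Om V (4 * r)).filter (fun ω => ¬ Dom G W (2 * r) ω)).card : ℝ) +
      (((Om V (4 * r)).filter (fun ω => 2 ≤ ncomp G W (2 * r) ω)).card : ℝ) := by
    exact_mod_cast h1
  have h3 : (((Om V (4 * r)).filter (fun ω => 2 ≤ ncomp G W (2 * r) ω)).card : ℝ) ≤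
      ∑ ω ∈ Om V (4 * r), yy G W (2 * r) ω := by
    rw [← Finset.sum_boole]
    apply Finset.sum_le_sum
    intro ω _
    unfold yy
    split_ifs with h
    · have : (2 : ℝ) ≤ (ncomp G W (2 * r) ω : ℝ) := by exact_mod_cast h
      linarith
    · exact le_rfl
  have e : r + r = 2 * r := by ring
  rw [e] at hit
  have h4 := hdom (2 * r) (by omega) (by omega)
  have hp : 0 ≤ (3 / 4 : ℝ) ^ r * O := by positivity
  have hn2 : n ≤ n ^ 2 := by nlinarith
  calc _ ≤ n * ((3 / 4 : ℝ) ^ r * O) +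
        ((3 / 4 : ℝ) ^ r * n + 4 * (n * (2 * n * (3 / 4 : ℝ) ^ r))) * O := by linarith
    _ = (2 * n + 8 * n ^ 2) * ((3 / 4 : ℝ) ^ r * O) := by ring
    _ ≤ (10 * n ^ 2) * ((3 / 4 : ℝ) ^ r * O) := by
        apply mul_le_mul_of_nonneg_right _ hp
        linarith
    _ = _ := by ring

end Run7.h414
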