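import Mathlib

set_option autoImplicit false

namespace Run7.h414

open SimpleGraph

variable {V : Type*}

/-- Connectedness of a set of vertices, in terms of edges leaving subsets. -/
def Cn (G : SimpleGraph V) (X : Set V) : Prop :=
  X.Nonempty ∧ ∀ U ⊆ X, U.Nonempty → (X \ U).Nonempty → ∃ u ∈ U, ∃ w ∈ X \ U, G.Adj u w

theorem cn_iff (G : SimpleGraph V) (X : Set V) : Cn G X ↔ (G.induce X).Connected := by
  constructor
  · rintro ⟨hne, h⟩
    rw [connected_iff]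
    refine ⟨?_, hne.to_subtype⟩
    intro x y
    by_contra hxy
    obtain ⟨u, hu, w, hw, huw⟩ := h
      {z | ∃ hz : z ∈ X, (G.induce X).Reachable x ⟨z, hz⟩}
      (fun z hz => hz.1) ⟨x.1, x.2, Reachable.refl _⟩
      ⟨y.1, y.2, fun hy => hxy hy.2⟩
    obtain ⟨huX, hur⟩ := hu
    apply hw.2
    refine ⟨hw.1, hur.trans ?_⟩
    apply Adj.reachable
    simpa using huw
  · intro hc
    have := hc.nonempty
    refine ⟨?_, ?_⟩
    · obtain ⟨x⟩ := hc.nonempty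
      exact ⟨x.1, x.2⟩
    · intro U hU hUne hXU
      obtain ⟨u, hu⟩ := hUne
      obtain ⟨w, hwX, hwU⟩ := hXU
      obtain ⟨p⟩ := hc.preconnected ⟨u, hU hu⟩ ⟨w, hwX⟩
      obtain ⟨d, -, hd1, hd2⟩ := p.exists_boundary_dart (Subtype.val ⁻¹' U) hu hwU
      exact ⟨d.fst.1, hd1, d.snd.1, ⟨d.snd.2, hd2⟩, by simpa using d.adj⟩

theorem Cn.nonempty {G : SimpleGraph V} {X : Set V} (h : Cn G X) : X.Nonempty := h.1

theorem cn_singleton (G : SimpleGraph V) (v : V) : Cn G {v} := by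
  refine ⟨⟨v, rfl⟩, ?_⟩
  intro U hU hne hne2
  obtain ⟨u, hu⟩ := hne
  obtain ⟨w, hw, hwU⟩ := hne2
  have h1 : u = v := hU hu
  have h2 : w = v := hw
  exact absurd (h1 ▸ hu) (h2 ▸ hwU)

/-- Union of two connected sets that meet or are joined by an edge. -/
theorem Cn.union {G : SimpleGraph V} {X Y : Set V} (hX : Cn G X) (hY : Cn G Y)
    (h : (X ∩ Y).Nonempty ∨ ∃ x ∈ X, ∃ y ∈ Y, G.Adj x y) : Cn G (X ∪ Y) := by
  refine ⟨hX.1.mono Set.subset_union_left, ?_⟩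
  intro U hU hne hne2
  by_contra hcon
  push Not at hcon
  have key : ∀ Z : Set V, Cn G Z → Z ⊆ X ∪ Y → Z ⊆ U ∨ Disjoint Z U := by
    intro Z hZ hZs
    by_contra hc
    push Not at hc
    obtain ⟨hc1, hc2⟩ := hc
    rw [Set.not_disjoint_iff] at hc2
    obtain ⟨a, haZ, haU⟩ := hc2
    rw [Set.not_subset] at hc1
    obtain ⟨b, hbZ, hbU⟩ := hc1
    obtain ⟨u, hu, w, hw, huw⟩ := hZ.2 (Z ∩ U) Set.inter_subset_left ⟨a, haZ, haU⟩
      ⟨b, hbZ, fun hb => hbU hb.2⟩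
    exact hcon u hu.2 w ⟨hZs hw.1, fun hwU => hw.2 ⟨hw.1, hwU⟩⟩ huw
  have hXk := key X hX Set.subset_union_left
  have hYk := key Y hY Set.subset_union_right
  obtain ⟨a, haU⟩ := hne
  obtain ⟨b, hb, hbU⟩ := hne2
  rcases hXk with hXk | hXk <;> rcases hYk with hYk | hYk
  · rcases hb with hb | hb
    · exact hbU (hXk hb)
    · exact hbU (hYk hb)
  · rcases h with ⟨z, hzX, hzY⟩ | ⟨x, hx, y, hy, hxy⟩
    · exact Set.disjoint_left.mp hYk hzY (hXk hzX)
    · exact hcon x (hXk hx) y ⟨Or.inr hy, Set.disjoint_left.mp hYk hy⟩ hxy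
  · rcases h with ⟨z, hzX, hzY⟩ | ⟨x, hx, y, hy, hxy⟩
    · exact Set.disjoint_left.mp hXk hzX (hYk hzY)
    · exact hcon y (hYk hy) x ⟨Or.inl hx, Set.disjoint_left.mp hXk hx⟩ hxy.symm
  · rcases hU haU with ha | ha
    · exact Set.disjoint_left.mp hXk ha haU
    · exact Set.disjoint_left.mp hYk ha haU

/-- The component of `y` in the set `Y`: union of the connected subsets of `Y` containing `y`. -/
def comp (G : SimpleGraph V) (Y : Set V) (y : V) : Set V :=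
  ⋃₀ {K | K ⊆ Y ∧ Cn G K ∧ y ∈ K}

theorem comp_subset (G : SimpleGraph V) (Y : Set V) (y : V) : comp G Y y ⊆ Y := by
  intro z hz
  obtain ⟨K, ⟨hK, -, -⟩, hz⟩ := hz
  exact hK hz

theorem mem_comp_self {G : SimpleGraph V} {Y : Set V} {y : V} (hy : y ∈ Y) : y ∈ comp G Y y :=
  ⟨{y}, ⟨by simpa using hy, cn_singleton G y, rfl⟩, rfl⟩

theorem subset_comp {G : SimpleGraph V} {Y K : Set V} {y : V} (hK : K ⊆ Y) (hc : Cn G K)
    (hy : y ∈ K) : K ⊆ comp G Y y := fun _ hz => ⟨K, ⟨hK, hc, hy⟩, hz⟩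

theorem comp_cn {G : SimpleGraph V} {Y : Set V} {y : V} (hy : y ∈ Y) : Cn G (comp G Y y) := by
  refine ⟨⟨y, mem_comp_self hy⟩, ?_⟩
  intro U hU hne hne2
  by_contra hcon
  push Not at hcon
  -- if y ∈ U then everything in U
  have key : ∀ K : Set V, K ⊆ Y → Cn G K → y ∈ K → K ⊆ U ∨ Disjoint K U := by
    intro K hKY hK hyK
    by_contra hc
    push Not at hc
    obtain ⟨hc1, hc2⟩ := hc
    rw [Set.not_disjoint_iff] at hc2
    obtain ⟨a, haK, haU⟩ := hc2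
    rw [Set.not_subset] at hc1
    obtain ⟨b, hbK, hbU⟩ := hc1
    obtain ⟨u, hu, w, hw, huw⟩ := hK.2 (K ∩ U) Set.inter_subset_left ⟨a, haK, haU⟩
      ⟨b, hbK, fun hb => hbU hb.2⟩
    exact hcon u hu.2 w ⟨subset_comp hKY hK hyK hw.1, fun hwU => hw.2 ⟨hw.1, hwU⟩⟩ huw
  obtain ⟨a, haU⟩ := hne
  obtain ⟨b, hb, hbU⟩ := hne2
  by_cases hyU : y ∈ U
  · obtain ⟨K, ⟨hKY, hK, hyK⟩, hbK⟩ := hb
    rcases key K hKY hK hyK with h | h
    · exact hbU (h hbK)
    · exact Set.disjoint_left.mp h hyK hyU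
  · obtain ⟨K, ⟨hKY, hK, hyK⟩, haK⟩ := hU haU
    rcases key K hKY hK hyK with h | h
    · exact hyU (h hyK)
    · exact Set.disjoint_left.mp h haK haU

theorem comp_noadj {G : SimpleGraph V} {Y : Set V} {y u w : V} (hy : y ∈ Y)
    (hu : u ∈ comp G Y y) (hw : w ∈ Y) (hwc : w ∉ comp G Y y) : ¬ G.Adj u w := by
  intro huw
  apply hwc
  have h1 : Cn G (comp G Y y ∪ {w}) :=
    (comp_cn hy).union (cn_singleton G w) (Or.inr ⟨u, hu, w, rfl, huw⟩)
  have h2 : comp G Y y ∪ {w} ⊆ Y := by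
    rintro z (hz | hz)
    · exact comp_subset G Y y hz
    · rw [Set.mem_singleton_iff] at hz
      exact hz ▸ hw
  exact subset_comp h2 h1 (Or.inl (mem_comp_self hy)) (Or.inr rfl)

theorem comp_eq_of_mem {G : SimpleGraph V} {Y : Set V} {y z : V} (hy : y ∈ Y)
    (hz : z ∈ comp G Y y) : comp G Y z = comp G Y y := by
  have hzY : z ∈ Y := comp_subset G Y y hz
  apply Set.Subset.antisymm
  · have h1 : Cn G (comp G Y y ∪ comp G Y z) :=
      (comp_cn hy).union (comp_cn hzY) (Or.inl ⟨z, hz, mem_comp_self hzY⟩)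
    have h2 : comp G Y y ∪ comp G Y z ⊆ Y :=
      Set.union_subset (comp_subset G Y y) (comp_subset G Y z)
    exact Set.subset_union_right.trans (subset_comp h2 h1 (Or.inl (mem_comp_self hy)))
  · exact subset_comp (comp_subset G Y y) (comp_cn hy) hz

/-- Two-colourability of a set of vertices. -/
def Bip (G : SimpleGraph V) (X : Set V) : Prop :=
  ∃ c : V → Bool, ∀ u ∈ X, ∀ v ∈ X, G.Adj u v → c u ≠ c v

theorem Bip.mono {G : SimpleGraph V} {X Y : Set V} (h : Bip G Y) (hXY : X ⊆ Y) : Bip G X := by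
  obtain ⟨c, hc⟩ := h
  exact ⟨c, fun u hu v hv => hc u (hXY hu) v (hXY hv)⟩

theorem bip_empty (G : SimpleGraph V) : Bip G ∅ := ⟨fun _ => true, by simp⟩

/-- Uniqueness of the two-colouring of a connected set. -/
theorem color_unique {G : SimpleGraph V} {X : Set V} (hX : Cn G X) {c d : V → Bool}
    (hc : ∀ u ∈ X, ∀ v ∈ X, G.Adj u v → c u ≠ c v)
    (hd : ∀ u ∈ X, ∀ v ∈ X, G.Adj u v → d u ≠ d v) {a : V} (ha : a ∈ X) (had : c a = d a) :
    ∀ x ∈ X, c x = d x := by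
  by_contra hcon
  push Not at hcon
  obtain ⟨b, hb, hbd⟩ := hcon
  obtain ⟨u, hu, w, hw, huw⟩ := hX.2 {x ∈ X | c x = d x} (fun x hx => hx.1) ⟨a, ha, had⟩
    ⟨b, hb, fun h => hbd h.2⟩
  apply hw.2
  refine ⟨hw.1, ?_⟩
  have h1 := hc u hu.1 w hw.1 huw
  have h2 := hd u hu.1 w hw.1 huw
  have h3 := hu.2
  revert h1 h2 h3
  cases c u <;> cases c w <;> cases d u <;> cases d w <;> simp

/-- Gluing two-colourings along a connected set `A`. -/
theorem bip_glue {G : SimpleGraph V} {ι : Type*} [Nonempty ι] {A : Set V} (hA : Cn G A)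
    (α : ι → Set V)
    (h1 : ∀ j, Bip G (A ∪ α j))
    (h2 : ∀ j l x, x ∈ α j → x ∈ α l → j ≠ l → x ∈ A ∨ ∃ a ∈ A, G.Adj a x)
    (h3 : ∀ x ∈ ⋃ j, α j, ∀ y ∈ ⋃ j, α j, G.Adj x y → ∃ j, x ∈ α j ∧ y ∈ α j) :
    Bip G (A ∪ ⋃ j, α j) := by
  classical
  obtain ⟨a0, ha0⟩ := hA.1
  -- normalised colourings
  have hn : ∀ j, ∃ c : V → Bool, (∀ u ∈ A ∪ α j, ∀ v ∈ A ∪ α j, G.Adj u v → c u ≠ c v) ∧
      c a0 = true := by
    intro j
    obtain ⟨c, hc⟩ := h1 j
    by_cases h : c a0 = true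
    · exact ⟨c, hc, h⟩
    · refine ⟨fun v => !(c v), fun u hu v hv huv => ?_, ?_⟩
      · have := hc u hu v hv huv
        simpa using this
      · simpa using h
  choose c hc hca using hn
  have hagree : ∀ j l, ∀ x ∈ A, c j x = c l x := by
    intro j l
    apply color_unique hA
      (fun u hu v hv => hc j u (Or.inl hu) v (Or.inl hv))
      (fun u hu v hv => hc l u (Or.inl hu) v (Or.inl hv)) ha0
    rw [hca, hca]
  have hagree2 : ∀ j l, ∀ x, x ∈ A ∪ α j → x ∈ A ∪ α l → c j x = c l x := by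
    intro j l x hx hx'
    by_cases hxA : x ∈ A
    · exact hagree j l x hxA
    have hxj : x ∈ α j := hx.resolve_left hxA
    have hxl : x ∈ α l := hx'.resolve_left hxA
    by_cases hjl : j = l
    · rw [hjl]
    rcases h2 j l x hxj hxl hjl with h | ⟨a, ha, hax⟩
    · exact absurd h hxA
    have e1 := hc j a (Or.inl ha) x (Or.inr hxj) hax
    have e2 := hc l a (Or.inl ha) x (Or.inr hxl) hax
    have e3 := hagree j l a ha
    revert e1 e2 e3
    cases c j a <;> cases c j x <;> cases c l a <;> cases c l x <;> simp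
  obtain ⟨j0⟩ := ‹Nonempty ι›
  -- choice of an index for every vertex
  have hidx : ∀ x : V, ∃ j : ι, (x ∈ A ∪ ⋃ j, α j) → x ∈ A ∪ α j := by
    intro x
    by_cases hx : x ∈ ⋃ j, α j
    · obtain ⟨j, hj⟩ := Set.mem_iUnion.mp hx
      exact ⟨j, fun _ => Or.inr hj⟩
    · exact ⟨j0, fun h => Or.inl (h.resolve_right hx)⟩
  choose idx hidx using hidx
  refine ⟨fun x => c (idx x) x, ?_⟩
  intro u hu v hv huv
  -- find a common index
  have hcommon : ∃ j, u ∈ A ∪ α j ∧ v ∈ A ∪ α j := by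
    by_cases huA : u ∈ A
    · exact ⟨idx v, Or.inl huA, hidx v hv⟩
    by_cases hvA : v ∈ A
    · exact ⟨idx u, hidx u hu, Or.inl hvA⟩
    obtain ⟨j, hj1, hj2⟩ := h3 u (hu.resolve_left huA) v (hv.resolve_left hvA) huv
    exact ⟨j, Or.inr hj1, Or.inr hj2⟩
  obtain ⟨j, hj1, hj2⟩ := hcommon
  show c (idx u) u ≠ c (idx v) v
  rw [hagree2 (idx u) j u (hidx u hu) hj1, hagree2 (idx v) j v (hidx v hv) hj2]
  exact hc j u hj1 v hj2 huv

end Run7.h414
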